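import Mathlib

/-!
# Perfect divisibility of odd-hole-free graphs: definitions

`MP_85471b_co`.
-/

set_option autoImplicit false

namespace Pool.Agent.PerfDiv

open SimpleGraph

universe u

variable {V : Type u}

/-- The graph `G` has no odd hole (an induced cycle of odd length at least 5). -/
def OddHoleFree (G : SimpleGraph V) : Prop :=
  ∀ k, 2 ≤ k → IsEmpty (cycleGraph (2 * k + 1) ↪g G)

/-- `G[A]` is a Berge graph: it has no odd hole and no odd antihole (the complement of a cycle of odd
length at least 5) as an induced subgraph. -/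
def Berge (G : SimpleGraph V) (A : Set V) : Prop :=
  ∀ k, 2 ≤ k → IsEmpty (cycleGraph (2 * k + 1) ↪g G.induce A) ∧
    IsEmpty ((cycleGraph (2 * k + 1))ᶜ ↪g G.induce A)

/-- For every nonempty set `S` of vertices and all positive vertex weights, `S` is the disjoint union of `A`
and `S \ A` such that `G[A]` is a Berge graph and every clique in `S \ A` has a smaller weight than some
clique in `S`. -/
def WeightDivisible (G : SimpleGraph V) : Prop :=
  ∀ S : Finset V, S.Nonempty → ∀ w : V → ℝ, (∀ v, 0 < w v) → ∃ A ⊆ S, Berge G A ∧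
    ∀ K : Finset V, K ⊆ S → Disjoint K A → G.IsClique K →
      ∃ K' ⊆ S, G.IsClique (K' : Set V) ∧ ∑ v ∈ K, w v < ∑ v ∈ K', w v

/-- The graph `G` has no induced kite: a diamond `a, b, p, q` (all edges except `pq`) and a vertex `r` whose
only neighbour among them is `q`. -/
def KiteFree (G : SimpleGraph V) : Prop :=
  ¬ ∃ a b p q r : V, p ≠ q ∧ G.Adj a b ∧ G.Adj a p ∧ G.Adj b p ∧ G.Adj a q ∧ G.Adj b q ∧
    ¬ G.Adj p q ∧ G.Adj r q ∧ ¬ G.Adj r a ∧ ¬ G.Adj r b ∧ ¬ G.Adj r p

/-- The graph `H` contains a tailed odd wheel: an induced cycle `C` of odd length at least 7, a vertex `v`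
adjacent to all its vertices, and an induced path `p 0, ..., p k` outside `C` such that `p 0` has a neighbour and
a non-neighbour in `C`, the other vertices of the path have no neighbour in `C`, and `v` is adjacent to all
vertices of the path except the last one, which differs from `v`. -/
def TailedOddWheel (H : SimpleGraph V) : Prop :=
  ∃ m, 3 ≤ m ∧ ∃ (C : cycleGraph (2 * m + 1) ↪g H) (v : V) (k : ℕ) (p : pathGraph (k + 1) ↪g H),
    (∀ i, H.Adj v (C i)) ∧ (∀ i j, p i ≠ C j) ∧
    (∃ j, H.Adj (p 0) (C j)) ∧ (∃ j, ¬ H.Adj (p 0) (C j)) ∧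
    (∀ i, i ≠ 0 → ∀ j, ¬ H.Adj (p i) (C j)) ∧
    (∀ i, i ≠ Fin.last k → H.Adj v (p i)) ∧ ¬ H.Adj v (p (Fin.last k)) ∧ v ≠ p (Fin.last k)

end Pool.Agent.PerfDiv
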