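import Mathlib

/-!
# Small induced subgraphs of windows of a tailed odd wheel: finite checks
-/

namespace Pool.Agent.PerfDiv

open SimpleGraph

universe u

variable {V : Type u}

/-- graph on `Fin k` with the given list of edges -/
def ofList (k : ℕ) (E : List (Fin k × Fin k)) : SimpleGraph (Fin k) :=
  SimpleGraph.fromRel fun a b => (a, b) ∈ E

/-- Boolean adjacency -/
def adjB {k : ℕ} (E : List (Fin k × Fin k)) (a b : Fin k) : Bool :=
  (a != b) && (E.contains (a, b) || E.contains (b, a))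

lemma adjB_iff {k : ℕ} (E : List (Fin k × Fin k)) (a b : Fin k) :
    (ofList k E).Adj a b ↔ adjB E a b = true := by
  simp [ofList, adjB]

/-- the claw -/
def claw : SimpleGraph (Fin 4) := ofList 4 [(0, 1), (0, 2), (0, 3)]

/-- the fork: a claw with one edge subdivided -/
def fork : SimpleGraph (Fin 5) := ofList 5 [(0, 1), (0, 2), (0, 3), (3, 4)]

/-- the kite: `K_4` minus an edge with a pendant vertex at a vertex of degree two -/
def kite : SimpleGraph (Fin 5) := ofList 5 [(0, 4), (1, 2), (1, 3), (1, 4), (2, 3), (2, 4)]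

/-- the dart: `K_4` minus an edge with a pendant vertex at a vertex of degree three -/
def dart : SimpleGraph (Fin 5) := ofList 5 [(0, 4), (1, 3), (1, 4), (2, 3), (2, 4), (3, 4)]

/-- the banner: `C_4` with a pendant vertex -/
def banner : SimpleGraph (Fin 5) := ofList 5 [(0, 4), (1, 3), (1, 4), (2, 3), (2, 4)]

/-- the bull: a triangle with pendant vertices at two of its vertices -/
def bull : SimpleGraph (Fin 5) := ofList 5 [(0, 4), (1, 3), (2, 3), (2, 4), (3, 4)]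

/-- `φ` realises the Boolean matrix `M` as an induced subgraph of `H` -/
structure Realizes {N : ℕ} (H : SimpleGraph V) (M : Fin N → Fin N → Bool) (φ : Fin N → V) :
    Prop where
  inj : Function.Injective φ
  adj : ∀ a b, H.Adj (φ a) (φ b) ↔ M a b = true

/-- the tuple `t` induces in the complement of `M` the graph with edge list `E` -/
def good {N k : ℕ} (M : Fin N → Fin N → Bool) (E : List (Fin k × Fin k)) (t : Fin k → Fin N) :
    Bool :=
  decide (∀ a b : Fin k, a ≠ b → t a ≠ t b ∧ M (t a) (t b) = !(adjB E a b))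

lemma emb_of_good {N k : ℕ} {G : SimpleGraph V} {M : Fin N → Fin N → Bool} {φ : Fin N → V}
    (h : Realizes Gᶜ M φ) {E : List (Fin k × Fin k)} {t : Fin k → Fin N}
    (hg : good M E t = true) : Nonempty (ofList k E ↪g G) := by
  have hg' := of_decide_eq_true hg
  have tinj : Function.Injective t := by
    intro a b hab
    by_contra hne
    exact (hg' a b hne).1 hab
  refine ⟨⟨⟨fun a => φ (t a), h.inj.comp tinj⟩, ?_⟩⟩
  intro a b
  change G.Adj (φ (t a)) (φ (t b)) ↔ _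
  by_cases hab : a = b
  · subst hab; simp
  · have h1 := (hg' a b hab).2
    have h2 := h.adj (t a) (t b)
    have h3 : φ (t a) ≠ φ (t b) := fun hh => (hg' a b hab).1 (h.inj hh)
    rw [compl_adj, h1] at h2
    rw [adjB_iff]
    constructor
    · intro hh
      by_contra hc
      have : (!adjB E a b) = true := by simpa using hc
      exact (h2.2 this).2 hh
    · intro hh
      by_contra hc
      have : (!adjB E a b) = true := h2.1 ⟨h3, hc⟩
      rw [hh] at this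
      simp at this

lemma emb_of_any {N k : ℕ} {G : SimpleGraph V} {M : Fin N → Fin N → Bool} {φ : Fin N → V}
    (h : Realizes Gᶜ M φ) {E : List (Fin k × Fin k)} {L : List (Fin k → Fin N)}
    (hg : L.any (good M E) = true) : Nonempty (ofList k E ↪g G) := by
  obtain ⟨t, -, ht⟩ := List.any_eq_true.1 hg
  exact emb_of_good h ht

/-- six bits -/
def bits (s0 s1 s2 s3 s4 s5 : Bool) : ℕ → Bool
  | 0 => s0 | 1 => s1 | 2 => s2 | 3 => s3 | 4 => s4 | 5 => s5 | _ => false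

/-- symmetric closure -/
def sym {N : ℕ} (B : ℕ → ℕ → Bool) (a b : Fin N) : Bool := B a.val b.val || B b.val a.val

/-- window (0..5), hub 6, and a vertex 7 attached to the window by `s` -/
def B1 (s : ℕ → Bool) (a b : ℕ) : Bool :=
  (a + 1 == b && decide (b ≤ 5)) || (b == 6 && decide (a ≤ 5)) || (b == 7 && s a)

/-- tail of length two: 7 adjacent to the hub, 8 adjacent to 7 -/
def B2 (s : ℕ → Bool) (a b : ℕ) : Bool :=
  B1 s a b || (a == 6 && b == 7) || (a == 7 && b == 8)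

/-- tail of length at least three: 7, 8 adjacent to the hub, path 7 - 8 - 9 -/
def B3 (s : ℕ → Bool) (a b : ℕ) : Bool :=
  B1 s a b || (a == 6 && b == 7) || (a == 7 && b == 8) || (a == 6 && b == 8) || (a == 8 && b == 9)

/-- the two kinds of windows -/
def cond (s0 s1 s2 s3 s4 s5 : Bool) : Bool :=
  (s0 && !s1 && !s2 && !s3) || (!s0 && s1 && s2 && (s2 || s3) && (s3 || s4) && (s4 || s5))

/-- the edge lists -/
def E1 : List (Fin 4 × Fin 4) := [(0, 1), (0, 2), (0, 3)]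
def E2 : List (Fin 5 × Fin 5) := [(0, 1), (0, 2), (0, 3), (3, 4)]
def E3 : List (Fin 5 × Fin 5) := [(0, 4), (1, 2), (1, 3), (1, 4), (2, 3), (2, 4)]
def E4 : List (Fin 5 × Fin 5) := [(0, 4), (1, 3), (1, 4), (2, 3), (2, 4), (3, 4)]
def E5 : List (Fin 5 × Fin 5) := [(0, 4), (1, 3), (1, 4), (2, 3), (2, 4)]
def E6 : List (Fin 5 × Fin 5) := [(0, 4), (1, 3), (2, 3), (2, 4), (3, 4)]

def L11 : List (Fin 4 → Fin 8) := [![7, 1, 2, 6], ![0, 2, 3, 7], ![5, 1, 2, 7], ![0, 4, 5, 7]]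
def L12 : List (Fin 5 → Fin 8) :=
  [![7, 1, 6, 2, 0], ![0, 2, 7, 3, 1], ![5, 1, 2, 7, 6], ![0, 4, 5, 7, 6]]
def L13 : List (Fin 5 → Fin 8) :=
  [![6, 0, 5, 2, 7], ![7, 3, 5, 1, 0], ![6, 2, 4, 0, 7], ![6, 0, 3, 5, 7], ![6, 2, 5, 0, 7],
    ![6, 1, 3, 5, 7]]
def L14 : List (Fin 5 → Fin 8) :=
  [![1, 2, 7, 0, 5], ![7, 4, 5, 2, 0], ![6, 1, 2, 4, 7], ![1, 2, 7, 0, 4], ![6, 1, 2, 5, 7],
    ![7, 4, 5, 0, 2]]
def L15 : List (Fin 5 → Fin 8) :=
  [![6, 2, 3, 0, 7], ![7, 1, 2, 4, 5], ![7, 4, 5, 1, 0], ![7, 1, 2, 5, 4]]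
def L16 : List (Fin 5 → Fin 8) := [![1, 7, 2, 0, 4], ![0, 6, 1, 7, 3], ![1, 7, 2, 0, 5]]

lemma d11 : ∀ s0 s1 s2 s3 s4 s5 : Bool, cond s0 s1 s2 s3 s4 s5 = true →
    L11.any (good (sym (B1 (bits s0 s1 s2 s3 s4 s5))) E1) = true := by decide +kernel
lemma d12 : ∀ s0 s1 s2 s3 s4 s5 : Bool, cond s0 s1 s2 s3 s4 s5 = true →
    L12.any (good (sym (B1 (bits s0 s1 s2 s3 s4 s5))) E2) = true := by decide +kernel
lemma d13 : ∀ s0 s1 s2 s3 s4 s5 : Bool, cond s0 s1 s2 s3 s4 s5 = true →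
    L13.any (good (sym (B1 (bits s0 s1 s2 s3 s4 s5))) E3) = true := by decide +kernel
lemma d14 : ∀ s0 s1 s2 s3 s4 s5 : Bool, cond s0 s1 s2 s3 s4 s5 = true →
    L14.any (good (sym (B1 (bits s0 s1 s2 s3 s4 s5))) E4) = true := by decide +kernel
lemma d15 : ∀ s0 s1 s2 s3 s4 s5 : Bool, cond s0 s1 s2 s3 s4 s5 = true →
    L15.any (good (sym (B1 (bits s0 s1 s2 s3 s4 s5))) E5) = true := by decide +kernel
lemma d16 : ∀ s0 s1 s2 s3 s4 s5 : Bool, cond s0 s1 s2 s3 s4 s5 = true →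
    L16.any (good (sym (B1 (bits s0 s1 s2 s3 s4 s5))) E6) = true := by decide +kernel

def L21 : List (Fin 4 → Fin 9) := [![8, 0, 1, 6]]
def L22 : List (Fin 5 → Fin 9) := [![8, 1, 6, 0, 7], ![8, 0, 6, 1, 7]]
def L23 : List (Fin 5 → Fin 9) := [![7, 4, 8, 1, 0], ![6, 1, 3, 7, 8], ![7, 5, 8, 1, 0]]
def L24 : List (Fin 5 → Fin 9) := [![6, 0, 1, 3, 8]]
def L25 : List (Fin 5 → Fin 9) :=
  [![6, 1, 2, 7, 8], ![7, 1, 2, 4, 5], ![7, 4, 5, 1, 0], ![7, 1, 2, 5, 4]]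
def L26 : List (Fin 5 → Fin 9) := [![1, 7, 2, 0, 8], ![6, 7, 0, 2, 8]]

lemma d21 : ∀ s0 s1 s2 s3 s4 s5 : Bool, cond s0 s1 s2 s3 s4 s5 = true →
    L21.any (good (sym (B2 (bits s0 s1 s2 s3 s4 s5))) E1) = true := by decide +kernel
lemma d22 : ∀ s0 s1 s2 s3 s4 s5 : Bool, cond s0 s1 s2 s3 s4 s5 = true →
    L22.any (good (sym (B2 (bits s0 s1 s2 s3 s4 s5))) E2) = true := by decide +kernel
lemma d23 : ∀ s0 s1 s2 s3 s4 s5 : Bool, cond s0 s1 s2 s3 s4 s5 = true →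
    L23.any (good (sym (B2 (bits s0 s1 s2 s3 s4 s5))) E3) = true := by decide +kernel
lemma d24 : ∀ s0 s1 s2 s3 s4 s5 : Bool, cond s0 s1 s2 s3 s4 s5 = true →
    L24.any (good (sym (B2 (bits s0 s1 s2 s3 s4 s5))) E4) = true := by decide +kernel
lemma d25 : ∀ s0 s1 s2 s3 s4 s5 : Bool, cond s0 s1 s2 s3 s4 s5 = true →
    L25.any (good (sym (B2 (bits s0 s1 s2 s3 s4 s5))) E5) = true := by decide +kernel
lemma d26 : ∀ s0 s1 s2 s3 s4 s5 : Bool, cond s0 s1 s2 s3 s4 s5 = true →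
    L26.any (good (sym (B2 (bits s0 s1 s2 s3 s4 s5))) E6) = true := by decide +kernel

def L31 : List (Fin 4 → Fin 10) := [![9, 0, 1, 6]]
def L32 : List (Fin 5 → Fin 10) := [![9, 6, 7, 4, 8], ![9, 6, 7, 5, 8], ![9, 6, 7, 0, 8]]
def L33 : List (Fin 5 → Fin 10) := [![6, 0, 2, 8, 9]]
def L34 : List (Fin 5 → Fin 10) := [![6, 0, 1, 3, 9]]
def L35 : List (Fin 5 → Fin 10) := [![6, 0, 1, 8, 9]]
def L36 : List (Fin 5 → Fin 10) := [![6, 8, 7, 3, 9], ![1, 7, 2, 0, 8]]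

/-- all windows, or the window without neighbours -/
def cond0 (s0 s1 s2 s3 s4 s5 : Bool) : Bool :=
  cond s0 s1 s2 s3 s4 s5 || (!s0 && !s1 && !s2 && !s3 && !s4 && !s5)

lemma d31 : ∀ s0 s1 s2 s3 s4 s5 : Bool, cond0 s0 s1 s2 s3 s4 s5 = true →
    L31.any (good (sym (B3 (bits s0 s1 s2 s3 s4 s5))) E1) = true := by decide +kernel
lemma d32 : ∀ s0 s1 s2 s3 s4 s5 : Bool, cond s0 s1 s2 s3 s4 s5 = true →
    L32.any (good (sym (B3 (bits s0 s1 s2 s3 s4 s5))) E2) = true := by decide +kernel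
lemma d33 : ∀ s0 s1 s2 s3 s4 s5 : Bool, cond0 s0 s1 s2 s3 s4 s5 = true →
    L33.any (good (sym (B3 (bits s0 s1 s2 s3 s4 s5))) E3) = true := by decide +kernel
lemma d34 : ∀ s0 s1 s2 s3 s4 s5 : Bool, cond0 s0 s1 s2 s3 s4 s5 = true →
    L34.any (good (sym (B3 (bits s0 s1 s2 s3 s4 s5))) E4) = true := by decide +kernel
lemma d35 : ∀ s0 s1 s2 s3 s4 s5 : Bool, cond0 s0 s1 s2 s3 s4 s5 = true →
    L35.any (good (sym (B3 (bits s0 s1 s2 s3 s4 s5))) E5) = true := by decide +kernel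
lemma d36 : ∀ s0 s1 s2 s3 s4 s5 : Bool, cond0 s0 s1 s2 s3 s4 s5 = true →
    L36.any (good (sym (B3 (bits s0 s1 s2 s3 s4 s5))) E6) = true := by decide +kernel

end Pool.Agent.PerfDiv
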