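import Pool.Agent.Lib_MP_85471b_kf.Proof
import Pool.Agent.Lib_MP_85471b_kf.Fin

/-!
# Every tailed odd wheel in the complement gives claw, fork, kite, dart, banner and bull
-/

namespace Pool.Agent.PerfDiv

open SimpleGraph

universe u

variable {V : Type u}

/-- induced cycle indexed by `ZMod n` -/
structure IsCyc (H : SimpleGraph V) (n : ℕ) (f : ZMod n → V) : Prop where
  inj : Function.Injective f
  adj : ∀ i j, H.Adj (f i) (f j) ↔ (j = i + 1 ∨ i = j + 1)

lemma exists_cyc {H : SimpleGraph V} {n : ℕ} (hn : 3 ≤ n) (c : cycleGraph n ↪g H) :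
    ∃ f : ZMod n → V, IsCyc H n f ∧ Set.range f = Set.range c := by
  obtain ⟨m, rfl⟩ := Nat.exists_eq_add_of_le' hn
  refine ⟨fun i => c (show Fin (m + 3) from i), ⟨?_, ?_⟩, rfl⟩
  · intro i j hij
    exact c.injective hij
  · intro i j
    rw [c.map_adj_iff, cycleGraph_adj]
    constructor
    · rintro (h | h)
      · right
        have : (i : ZMod (m + 3)) - j = 1 := h
        rw [← this]; ring
      · left
        have : (j : ZMod (m + 3)) - i = 1 := h
        rw [← this]; ring
    · rintro (h | h)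
      · right
        change (j : ZMod (m + 3)) - i = 1
        rw [h]; ring
      · left
        change (i : ZMod (m + 3)) - j = 1
        rw [h]; ring

/-- a window of six consecutive vertices of an induced cycle of length at least seven -/
structure Window (H : SimpleGraph V) (P : ℕ → V) : Prop where
  inj : ∀ i j, i ≤ 5 → j ≤ 5 → P i = P j → i = j
  adj : ∀ i j, i ≤ 5 → j ≤ 5 → (H.Adj (P i) (P j) ↔ (i + 1 = j ∨ j + 1 = i))

lemma cast_inj {n : ℕ} {a b : ℕ} (ha : a < n) (hb : b < n) : (a : ZMod n) = (b : ZMod n) ↔ a = b := by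
  rw [ZMod.natCast_eq_natCast_iff', Nat.mod_eq_of_lt ha, Nat.mod_eq_of_lt hb]

lemma window_of_cyc {H : SimpleGraph V} {n : ℕ} (hn : 7 ≤ n) {f : ZMod n → V}
    (hf : IsCyc H n f) (t : ZMod n) : Window H (fun i => f (t + (i : ZMod n))) := by
  constructor
  · intro i j hi hj h
    have := add_left_cancel (hf.inj h)
    rwa [cast_inj (by omega) (by omega)] at this
  · intro i j hi hj
    rw [hf.adj]
    have e : ∀ a b : ℕ, a ≤ 5 → b ≤ 5 → (t + (b : ZMod n) = t + (a : ZMod n) + 1 ↔ a + 1 = b) := by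
      intro a b ha hb
      rw [add_assoc, add_right_inj]
      have : ((a : ZMod n) + 1) = ((a + 1 : ℕ) : ZMod n) := by push_cast; ring
      rw [this, cast_inj (by omega) (by omega)]
      omega
    rw [e i j hi hj, e j i hj hi]

/-- the two kinds of windows -/
lemma exists_window {n : ℕ} (hn : Odd n) (hn7 : 7 ≤ n) (s : ZMod n → Prop) (h1 : ∃ i, s i)
    (h0 : ∃ i, ¬ s i) (h5 : ∀ t, ¬ (s t ∧ ¬ s (t + 1) ∧ ¬ s (t + 2) ∧ s (t + 3))) :
    (∃ t, s t ∧ ¬ s (t + 1) ∧ ¬ s (t + 2) ∧ ¬ s (t + 3)) ∨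
      (∃ t, ¬ s t ∧ s (t + 1) ∧ s (t + 2) ∧ ∀ i, s i ∨ s (i + 1)) := by
  have : NeZero n := ⟨by omega⟩
  by_cases hTT : ∃ i, ¬ s i ∧ ¬ s (i + 1)
  · left
    obtain ⟨t, ht0, ht1, ht2⟩ : ∃ t, s t ∧ ¬ s (t + 1) ∧ ¬ s (t + 2) := by
      by_contra hc
      push Not at hc
      obtain ⟨i, hi0, hi1⟩ := hTT
      have key : ∀ k : ℕ, ¬ s (i - (k : ZMod n)) ∧ ¬ s (i - (k : ZMod n) + 1) := by
        intro k
        induction k with
        | zero => simpa using ⟨hi0, hi1⟩
        | succ k ih =>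
          have e1 : i - ((k + 1 : ℕ) : ZMod n) + 1 = i - (k : ZMod n) := by push_cast; ring
          have e2 : i - ((k + 1 : ℕ) : ZMod n) + 2 = i - (k : ZMod n) + 1 := by push_cast; ring
          refine ⟨?_, by rw [e1]; exact ih.1⟩
          intro hs
          have := hc _ hs (by rw [e1]; exact ih.1)
          rw [e2] at this
          exact ih.2 this
      obtain ⟨j, hj⟩ := h1
      have := (key (i - j).val).1
      rw [ZMod.natCast_zmod_val, sub_sub_cancel] at this
      exact this hj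
    refine ⟨t, ht0, ht1, ht2, fun h3 => h5 t ⟨ht0, ht1, ht2, h3⟩⟩
  · right
    push Not at hTT
    have hTT' : ∀ i, s i ∨ s (i + 1) := by
      intro i
      by_cases hi : s i
      · exact Or.inl hi
      · exact Or.inr (hTT i hi)
    by_contra hc
    push Not at hc
    obtain ⟨t, ht⟩ := h0
    have step : ∀ u, ¬ s u → ¬ s (u + 2) := by
      intro u hu h2
      obtain ⟨i, hi0, hi1⟩ := hc u hu (hTT u hu) h2
      rcases hTT' i with h | h
      · exact hi0 h
      · exact hi1 h
    have key : ∀ k : ℕ, ¬ s (t + 2 * (k : ZMod n)) := by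
      intro k
      induction k with
      | zero => simpa using ht
      | succ k ih =>
        have := step _ ih
        have e1 : t + 2 * (k : ZMod n) + 2 = t + 2 * ((k + 1 : ℕ) : ZMod n) := by push_cast; ring
        rwa [e1] at this
    obtain ⟨m, hm⟩ := hn
    have h2 := key (m + 1)
    have e2 : (2 : ZMod n) * ((m + 1 : ℕ) : ZMod n) = 1 := by
      have h3 : ((2 * m + 1 : ℕ) : ZMod n) = 0 := by
        rw [← hm]; exact ZMod.natCast_self n
      push_cast at h3 ⊢
      linear_combination h3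
    rw [e2] at h2
    rcases hTT' t with h | h
    · exact ht h
    · exact h2 h

/-- truth value -/
noncomputable def tv (s : ℕ → Prop) (i : ℕ) : Bool := @decide (s i) (Classical.propDecidable _)

lemma tv_iff (s : ℕ → Prop) (i : ℕ) : tv s i = true ↔ s i := by
  unfold tv; exact @decide_eq_true_iff _ (Classical.propDecidable _)

/-- the bits of a window -/
lemma cond_of {s : ℕ → Prop} (h : (s 0 ∧ ¬ s 1 ∧ ¬ s 2 ∧ ¬ s 3) ∨
    (¬ s 0 ∧ s 1 ∧ s 2 ∧ ∀ i, s i ∨ s (i + 1))) :
    cond (tv s 0) (tv s 1) (tv s 2) (tv s 3) (tv s 4) (tv s 5) = true := by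
  have f : ∀ i, ¬ s i → tv s i = false := by
    intro i hi
    rw [Bool.eq_false_iff]
    exact fun h => hi ((tv_iff s i).1 h)
  have t : ∀ i, s i → tv s i = true := fun i hi => (tv_iff s i).2 hi
  rcases h with h | h
  · simp [cond, t 0 h.1, f 1 h.2.1, f 2 h.2.2.1, f 3 h.2.2.2]
  · have h2 := h.2.2.2 2
    have h3 := h.2.2.2 3
    have h4 := h.2.2.2 4
    norm_num at h2 h3 h4
    simp only [cond, f 0 h.1, t 1 h.2.1, t 2 h.2.2.1, Bool.not_true, Bool.not_false,
      Bool.false_and, Bool.true_and, Bool.false_or, Bool.true_or, Bool.and_eq_true,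
      Bool.or_eq_true, tv_iff]
    exact ⟨h3, h4⟩

lemma bits_iff (s : ℕ → Prop) (i : ℕ) (hi : i ≤ 5) :
    s i ↔ bits (tv s 0) (tv s 1) (tv s 2) (tv s 3) (tv s 4) (tv s 5) i = true := by
  interval_cases i <;> exact (tv_iff s _).symm

lemma bits_big (s0 s1 s2 s3 s4 s5 : Bool) (i : ℕ) (hi : 6 ≤ i) : bits s0 s1 s2 s3 s4 s5 i = false := by
  match i, hi with
  | (j + 6), _ => rfl

/-- general realisation lemma: window plus up to four further vertices -/
lemma realizes_aux {H : SimpleGraph V} {P : ℕ → V} (hP : Window H P) {r : ℕ} (e : ℕ → V)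
    (B : ℕ → ℕ → Bool) (hB0 : ∀ i j, i ≤ 5 → j ≤ 5 → (B i j = true ↔ i + 1 = j))
    (hB1 : ∀ i j, 6 ≤ i → j ≤ 5 → B i j = false)
    (hPe : ∀ i j, i ≤ 5 → j < r → (H.Adj (e j) (P i) ↔ B i (6 + j) = true) ∧ P i ≠ e j)
    (hee : ∀ i j, i < r → j < r → i < j → e i ≠ e j)
    (hee' : ∀ i j, i < r → j < r → (H.Adj (e i) (e j) ↔ (B (6 + i) (6 + j) || B (6 + j) (6 + i)) = true)) :
    Realizes H (sym (N := 6 + r) B) (fun a => if a.val ≤ 5 then P a.val else e (a.val - 6)) := by
  constructor
  · intro a b hab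
    apply Fin.ext
    have ha := a.2
    have hb := b.2
    by_cases h1 : a.val ≤ 5 <;> by_cases h2 : b.val ≤ 5
    · simp only [h1, h2, if_true] at hab
      exact hP.inj _ _ h1 h2 hab
    · simp only [h1, h2, if_true, if_false] at hab
      exact absurd hab (hPe _ _ h1 (by omega)).2
    · simp only [h1, h2, if_true, if_false] at hab
      exact absurd hab.symm (hPe _ _ h2 (by omega)).2
    · simp only [h1, h2, if_false] at hab
      rcases lt_trichotomy (a.val - 6) (b.val - 6) with h | h | h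
      · exact absurd hab (hee _ _ (by omega) (by omega) h)
      · omega
      · exact absurd hab.symm (hee _ _ (by omega) (by omega) h)
  · intro a b
    have ha := a.2
    have hb := b.2
    unfold sym
    by_cases h1 : a.val ≤ 5 <;> by_cases h2 : b.val ≤ 5
    · simp only [h1, h2, if_true]
      rw [hP.adj _ _ h1 h2, Bool.or_eq_true, hB0 _ _ h1 h2, hB0 _ _ h2 h1]
    · simp only [h1, h2, if_true, if_false]
      rw [H.adj_comm, (hPe _ _ h1 (show b.val - 6 < r by omega)).1, hB1 b.val a.val (by omega) h1,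
        Bool.or_false, show 6 + (b.val - 6) = b.val by omega]
    · simp only [h1, h2, if_true, if_false]
      rw [(hPe _ _ h2 (show a.val - 6 < r by omega)).1, hB1 a.val b.val (by omega) h2,
        Bool.false_or, show 6 + (a.val - 6) = a.val by omega]
    · simp only [h1, h2, if_false]
      rw [hee' _ _ (by omega) (by omega), show 6 + (a.val - 6) = a.val by omega,
        show 6 + (b.val - 6) = b.val by omega]

/-- five vertices that induce a pentagon in the complement -/
lemma no_c5 {G : SimpleGraph V} (hG : OddHoleFree G) (τ : Fin 5 → V)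
    (hinj : Function.Injective τ)
    (h : ∀ a b, Gᶜ.Adj (τ a) (τ b) ↔ (cycleGraph 5).Adj a b) : False := by
  have h1 : Copy (cycleGraph (2 * 2 + 1))ᶜ G Set.univ τ := by
    refine ⟨hinj, fun _ => trivial, fun i j => ?_⟩
    by_cases hij : i = j
    · subst hij; simp
    · have := h i j
      rw [compl_adj] at this ⊢
      have h2 : τ i ≠ τ j := fun hh => hij (hinj hh)
      constructor
      · intro h3
        exact ⟨hij, fun h4 => (this.2 h4).2 h3⟩
      · rintro ⟨-, h3⟩
        by_contra h4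
        exact h3 (this.1 ⟨h2, h4⟩)
  obtain ⟨c', hc'⟩ := copy_five h1
  obtain ⟨e, -⟩ := emb_univ_of_copy hc'
  exact (hG 2 le_rfl).elim e

/-- no gap of length two -/
lemma no_gap {G : SimpleGraph V} (hG : OddHoleFree G) {n : ℕ} (hn : 7 ≤ n) {f : ZMod n → V}
    (hf : IsCyc Gᶜ n f) {x : V} (hx : ∀ i, x ≠ f i) (t : ZMod n) :
    ¬ (Gᶜ.Adj x (f t) ∧ ¬ Gᶜ.Adj x (f (t + 1)) ∧ ¬ Gᶜ.Adj x (f (t + 2)) ∧
      Gᶜ.Adj x (f (t + 3))) := by
  rintro ⟨h0, h1, h2, h3⟩
  have w := window_of_cyc hn hf t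
  set P : ℕ → V := fun i => f (t + (i : ZMod n)) with hPdef
  have e0 : f t = P 0 := by simp [hPdef]
  have e1 : f (t + 1) = P 1 := by simp [hPdef]
  have e2 : f (t + 2) = P 2 := by simp [hPdef]
  have e3 : f (t + 3) = P 3 := by simp [hPdef]
  rw [e0] at h0; rw [e1] at h1; rw [e2] at h2; rw [e3] at h3
  have hxP : ∀ i, x ≠ P i := fun i => hx _
  refine no_c5 hG (fun a => if a.val ≤ 3 then P a.val else x) ?_ ?_
  · intro a b hab
    apply Fin.ext
    have ha := a.2
    have hb := b.2
    by_cases g1 : a.val ≤ 3 <;> by_cases g2 : b.val ≤ 3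
    · simp only [g1, g2, if_true] at hab
      exact w.inj _ _ (by omega) (by omega) hab
    · simp only [g1, g2, if_true, if_false] at hab
      exact absurd hab.symm (hxP _)
    · simp only [g1, g2, if_true, if_false] at hab
      exact absurd hab (hxP _)
    · omega
  · have hP : ∀ i j : ℕ, i ≤ 3 → j ≤ 3 → (Gᶜ.Adj (P i) (P j) ↔ (i + 1 = j ∨ j + 1 = i)) :=
      fun i j hi hj => w.adj i j (by omega) (by omega)
    have h0' := h0.symm
    have h3' := h3.symm
    have h1' : ¬ Gᶜ.Adj (P 1) x := fun h => h1 h.symm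
    have h2' : ¬ Gᶜ.Adj (P 2) x := fun h => h2 h.symm
    intro a b
    have hcyc : ∀ a b : Fin 5, (cycleGraph 5).Adj a b ↔ (a - b = 1 ∨ b - a = 1) := by
      intro a b
      exact cycleGraph_adj
    rw [hcyc]
    fin_cases a <;> fin_cases b <;>
      first
        | (simp only [Fin.zero_eta, Fin.mk_one, Fin.reduceFinMk]
           norm_num [h0, h1, h2, h3, h0', h1', h2', h3', hP]
           try decide)

end Pool.Agent.PerfDiv
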