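import Pool.Agent.Lib_MP_85471b_kf.Part2

/-!
# Every tailed odd wheel in the complement gives claw, fork, kite, dart, banner and bull
-/

namespace Pool.Agent.PerfDiv

open SimpleGraph

universe u

variable {V : Type u}

/-- all six graphs are induced subgraphs -/
def AllSix (G : SimpleGraph V) : Prop :=
  Nonempty (claw ↪g G) ∧ Nonempty (fork ↪g G) ∧ Nonempty (kite ↪g G) ∧ Nonempty (dart ↪g G) ∧
    Nonempty (banner ↪g G) ∧ Nonempty (bull ↪g G)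

lemma six1 {G : SimpleGraph V} {φ : Fin 8 → V} {s0 s1 s2 s3 s4 s5 : Bool}
    (h : Realizes Gᶜ (sym (B1 (bits s0 s1 s2 s3 s4 s5))) φ) (hc : cond s0 s1 s2 s3 s4 s5 = true) :
    AllSix G :=
  ⟨emb_of_any h (d11 _ _ _ _ _ _ hc), emb_of_any h (d12 _ _ _ _ _ _ hc),
    emb_of_any h (d13 _ _ _ _ _ _ hc), emb_of_any h (d14 _ _ _ _ _ _ hc),
    emb_of_any h (d15 _ _ _ _ _ _ hc), emb_of_any h (d16 _ _ _ _ _ _ hc)⟩

lemma six2 {G : SimpleGraph V} {φ : Fin 9 → V} {s0 s1 s2 s3 s4 s5 : Bool}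
    (h : Realizes Gᶜ (sym (B2 (bits s0 s1 s2 s3 s4 s5))) φ) (hc : cond s0 s1 s2 s3 s4 s5 = true) :
    AllSix G :=
  ⟨emb_of_any h (d21 _ _ _ _ _ _ hc), emb_of_any h (d22 _ _ _ _ _ _ hc),
    emb_of_any h (d23 _ _ _ _ _ _ hc), emb_of_any h (d24 _ _ _ _ _ _ hc),
    emb_of_any h (d25 _ _ _ _ _ _ hc), emb_of_any h (d26 _ _ _ _ _ _ hc)⟩

lemma six3 {G : SimpleGraph V} {φ : Fin 10 → V} {s0 s1 s2 s3 s4 s5 : Bool}
    (h : Realizes Gᶜ (sym (B3 (bits s0 s1 s2 s3 s4 s5))) φ) (hc : cond0 s0 s1 s2 s3 s4 s5 = true)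
    (hf : Nonempty (fork ↪g G)) : AllSix G :=
  ⟨emb_of_any h (d31 _ _ _ _ _ _ hc), hf,
    emb_of_any h (d33 _ _ _ _ _ _ hc), emb_of_any h (d34 _ _ _ _ _ _ hc),
    emb_of_any h (d35 _ _ _ _ _ _ hc), emb_of_any h (d36 _ _ _ _ _ _ hc)⟩

/-- fork from a long tail: `v, w, z, y, x` -/
lemma fork_of_five {G : SimpleGraph V} {v w z y x : V} (hvw : Gᶜ.Adj v w) (hvz : Gᶜ.Adj v z)
    (hvy : Gᶜ.Adj v y) (hwz : Gᶜ.Adj w z) (hzy : Gᶜ.Adj z y) (hyx : Gᶜ.Adj y x)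
    (hvx : ¬ Gᶜ.Adj v x) (hvx' : v ≠ x) (hwy : ¬ Gᶜ.Adj w y) (hwy' : w ≠ y)
    (hwx : ¬ Gᶜ.Adj w x) (hwx' : w ≠ x) (hzx : ¬ Gᶜ.Adj z x) (hzx' : z ≠ x) :
    Nonempty (fork ↪g G) := by
  simp only [compl_adj, not_and, not_not] at *
  refine ⟨⟨⟨![x, v, z, w, y], ?_⟩, ?_⟩⟩
  · intro a b hab
    fin_cases a <;> fin_cases b <;> simp_all [eq_comm]
  · intro a b
    change G.Adj (![x, v, z, w, y] a) (![x, v, z, w, y] b) ↔ _
    rw [show fork = ofList 5 E2 from rfl, adjB_iff]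
    replace hvx := hvx hvx'
    replace hwy := hwy hwy'
    replace hwx := hwx hwx'
    replace hzx := hzx hzx'
    have q1 := hvx.symm
    have q2 := hwy.symm
    have q3 := hwx.symm
    have q4 := hzx.symm
    have r1 := hvw.2
    have r2 := hvz.2
    have r3 := hvy.2
    have r4 := hwz.2
    have r5 := hzy.2
    have r6 := hyx.2
    have r1' : ¬ G.Adj w v := fun h => r1 h.symm
    have r2' : ¬ G.Adj z v := fun h => r2 h.symm
    have r3' : ¬ G.Adj y v := fun h => r3 h.symm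
    have r4' : ¬ G.Adj z w := fun h => r4 h.symm
    have r5' : ¬ G.Adj y z := fun h => r5 h.symm
    have r6' : ¬ G.Adj x y := fun h => r6 h.symm
    fin_cases a <;> fin_cases b <;>
      simp [adjB, E2, hvx, hwy, hwx, hzx, q1, q2, q3, q4, r1, r2, r3, r4, r5, r6, r1', r2', r3',
        r4', r5', r6']

lemma B1_path (s : ℕ → Bool) (i j : ℕ) (hi : i ≤ 5) (hj : j ≤ 5) :
    B1 s i j = true ↔ i + 1 = j := by
  simp only [B1, Bool.or_eq_true, Bool.and_eq_true, beq_iff_eq, decide_eq_true_eq]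
  omega

lemma B1_big (s : ℕ → Bool) (i j : ℕ) (hi : 6 ≤ i) (hj : j ≤ 5) : B1 s i j = false := by
  rw [Bool.eq_false_iff]
  simp only [B1, ne_eq, Bool.or_eq_true, Bool.and_eq_true, beq_iff_eq, decide_eq_true_eq]
  omega

lemma B1_six (s : ℕ → Bool) (i : ℕ) (hi : i ≤ 5) : B1 s i 6 = true := by
  interval_cases i <;> simp [B1]

lemma B1_seven (s : ℕ → Bool) (i : ℕ) (hi : i ≤ 5) : B1 s i 7 = s i := by
  interval_cases i <;> simp [B1]

lemma B1_eight (s : ℕ → Bool) (i j : ℕ) (hi : i ≤ 5) (hj : 8 ≤ j) : B1 s i j = false := by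
  rw [Bool.eq_false_iff]
  simp only [B1, ne_eq, Bool.or_eq_true, Bool.and_eq_true, beq_iff_eq, decide_eq_true_eq]
  omega

end Pool.Agent.PerfDiv
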