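import Pool.Agent.Lib_MP_85471b_kf.Part2b

/-!
# Every tailed odd wheel in the complement gives claw, fork, kite, dart, banner and bull
-/

namespace Pool.Agent.PerfDiv

open SimpleGraph

universe u

variable {V : Type u}

lemma B2_eq (s : ℕ → Bool) (i j : ℕ) (h : i ≤ 5 ∨ j ≤ 5) : B2 s i j = B1 s i j := by
  unfold B2
  rcases h with h | h
  · have h1 : (i == 6) = false := by simp; omega
    have h2 : (i == 7) = false := by simp; omega
    simp [h1, h2]
  · have h1 : (j == 7) = false := by simp; omega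
    have h2 : (j == 8) = false := by simp; omega
    simp [h1, h2]

lemma B3_eq (s : ℕ → Bool) (i j : ℕ) (h : i ≤ 5 ∨ j ≤ 5) : B3 s i j = B1 s i j := by
  unfold B3
  rcases h with h | h
  · have h1 : (i == 6) = false := by simp; omega
    have h2 : (i == 7) = false := by simp; omega
    have h3 : (i == 8) = false := by simp; omega
    simp [h1, h2, h3]
  · have h1 : (j == 7) = false := by simp; omega
    have h2 : (j == 8) = false := by simp; omega
    have h3 : (j == 9) = false := by simp; omega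
    simp [h1, h2, h3]

section cases

variable {H : SimpleGraph V} {P : ℕ → V} (hP : Window H P) {s0 s1 s2 s3 s4 s5 : Bool}

include hP in
/-- tail of length one -/
lemma real1 {v x : V} (hv : ∀ i, i ≤ 5 → H.Adj v (P i)) (hxP : ∀ i, i ≤ 5 → x ≠ P i)
    (hx : ∀ i, i ≤ 5 → (H.Adj x (P i) ↔ bits s0 s1 s2 s3 s4 s5 i = true)) (hvx : ¬ H.Adj v x)
    (hne : v ≠ x) :
    ∃ φ, Realizes H (sym (N := 8) (B1 (bits s0 s1 s2 s3 s4 s5))) φ := by
  have hvx' : ¬ H.Adj x v := fun h => hvx h.symm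
  refine ⟨_, realizes_aux (r := 2) hP (fun j => if j = 0 then v else x) _
    (fun i j hi hj => B1_path _ i j hi hj) (fun i j hi hj => B1_big _ i j hi hj) ?_ ?_ ?_⟩
  · intro i j hi hj
    interval_cases j
    · simp only [if_true, add_zero]
      exact ⟨⟨fun _ => B1_six _ i hi, fun _ => hv i hi⟩, fun h => (hv i hi).ne h.symm⟩
    · simp only [one_ne_zero, if_false, Nat.reduceAdd]
      rw [B1_seven _ i hi]
      exact ⟨hx i hi, fun h => hxP i hi h.symm⟩
  · intro i j hi hj hij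
    obtain ⟨rfl, rfl⟩ : i = 0 ∧ j = 1 := by omega
    simpa using hne
  · intro i j hi hj
    interval_cases i <;> interval_cases j <;> simp [B1, bits, hvx, hvx']

include hP in
/-- tail of length two -/
lemma real2 {v y x : V} (hv : ∀ i, i ≤ 5 → H.Adj v (P i)) (hyP : ∀ i, i ≤ 5 → y ≠ P i)
    (hxP : ∀ i, i ≤ 5 → x ≠ P i)
    (hy : ∀ i, i ≤ 5 → (H.Adj y (P i) ↔ bits s0 s1 s2 s3 s4 s5 i = true))
    (hx : ∀ i, i ≤ 5 → ¬ H.Adj x (P i)) (hvy : H.Adj v y) (hyx : H.Adj y x) (hvx : ¬ H.Adj v x)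
    (hne : v ≠ x) :
    ∃ φ, Realizes H (sym (N := 9) (B2 (bits s0 s1 s2 s3 s4 s5))) φ := by
  have hvx' : ¬ H.Adj x v := fun h => hvx h.symm
  refine ⟨_, realizes_aux (r := 3) hP (fun j => if j = 0 then v else if j = 1 then y else x) _
    (fun i j hi hj => by rw [B2_eq _ _ _ (Or.inl hi)]; exact B1_path _ i j hi hj)
    (fun i j hi hj => by rw [B2_eq _ _ _ (Or.inr hj)]; exact B1_big _ i j hi hj) ?_ ?_ ?_⟩
  · intro i j hi hj
    rw [B2_eq _ _ _ (Or.inl hi)]
    interval_cases j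
    · simp only [if_true, add_zero]
      exact ⟨⟨fun _ => B1_six _ i hi, fun _ => hv i hi⟩, fun h => (hv i hi).ne h.symm⟩
    · simp only [one_ne_zero, if_true, if_false, Nat.reduceAdd]
      rw [B1_seven _ i hi]
      exact ⟨hy i hi, fun h => hyP i hi h.symm⟩
    · simp only [OfNat.ofNat_ne_zero, OfNat.ofNat_ne_one, if_false, Nat.reduceAdd]
      rw [B1_eight _ i 8 hi le_rfl]
      exact ⟨⟨fun h => absurd h (hx i hi), fun h => absurd h (by simp)⟩, fun h => hxP i hi h.symm⟩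
  · intro i j hi hj hij
    have h1 := hvy.ne
    have h2 := hyx.ne
    interval_cases i <;> interval_cases j <;> simp_all
  · intro i j hi hj
    interval_cases i <;> interval_cases j <;>
      simp [B2, B1, bits, hvx, hvx', hvy, hvy.symm, hyx, hyx.symm]

include hP in
/-- tail of length at least three -/
lemma real3 {v z y x : V} (hv : ∀ i, i ≤ 5 → H.Adj v (P i)) (hzP : ∀ i, i ≤ 5 → z ≠ P i)
    (hyP : ∀ i, i ≤ 5 → y ≠ P i) (hxP : ∀ i, i ≤ 5 → x ≠ P i)
    (hz : ∀ i, i ≤ 5 → (H.Adj z (P i) ↔ bits s0 s1 s2 s3 s4 s5 i = true))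
    (hy : ∀ i, i ≤ 5 → ¬ H.Adj y (P i)) (hx : ∀ i, i ≤ 5 → ¬ H.Adj x (P i)) (hvz : H.Adj v z)
    (hvy : H.Adj v y) (hzy : H.Adj z y) (hyx : H.Adj y x) (hzx : ¬ H.Adj z x) (hvx : ¬ H.Adj v x)
    (hne : v ≠ x) (hne' : z ≠ x) :
    ∃ φ, Realizes H (sym (N := 10) (B3 (bits s0 s1 s2 s3 s4 s5))) φ := by
  have hvx' : ¬ H.Adj x v := fun h => hvx h.symm
  have hzx' : ¬ H.Adj x z := fun h => hzx h.symm
  refine ⟨_, realizes_aux (r := 4) hP
    (fun j => if j = 0 then v else if j = 1 then z else if j = 2 then y else x) _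
    (fun i j hi hj => by rw [B3_eq _ _ _ (Or.inl hi)]; exact B1_path _ i j hi hj)
    (fun i j hi hj => by rw [B3_eq _ _ _ (Or.inr hj)]; exact B1_big _ i j hi hj) ?_ ?_ ?_⟩
  · intro i j hi hj
    rw [B3_eq _ _ _ (Or.inl hi)]
    interval_cases j
    · simp only [if_true, add_zero]
      exact ⟨⟨fun _ => B1_six _ i hi, fun _ => hv i hi⟩, fun h => (hv i hi).ne h.symm⟩
    · simp only [one_ne_zero, if_true, if_false, Nat.reduceAdd]
      rw [B1_seven _ i hi]
      exact ⟨hz i hi, fun h => hzP i hi h.symm⟩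
    · simp only [OfNat.ofNat_ne_zero, OfNat.ofNat_ne_one, if_true, if_false, Nat.reduceAdd]
      rw [B1_eight _ i 8 hi le_rfl]
      exact ⟨⟨fun h => absurd h (hy i hi), fun h => absurd h (by simp)⟩, fun h => hyP i hi h.symm⟩
    · simp only [OfNat.ofNat_ne_zero, OfNat.ofNat_ne_one, Nat.succ_ne_self, if_false, Nat.reduceAdd]
      rw [B1_eight _ i 9 hi (by omega)]
      exact ⟨⟨fun h => absurd h (hx i hi), fun h => absurd h (by simp)⟩, fun h => hxP i hi h.symm⟩
  · intro i j hi hj hij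
    have h1 := hvy.ne
    have h2 := hyx.ne
    have h3 := hvz.ne
    have h4 := hzy.ne
    interval_cases i <;> interval_cases j <;> simp_all
  · intro i j hi hj
    interval_cases i <;> interval_cases j <;>
      simp [B3, B1, bits, hvx, hvx', hvy, hvy.symm, hyx, hyx.symm, hzx, hzx', hvz, hvz.symm, hzy,
        hzy.symm]

end cases

/-- **Part 2.** -/
theorem six_of_wheel {G : SimpleGraph V} (hG : OddHoleFree G) (hT : TailedOddWheel Gᶜ) :
    AllSix G := by
  classical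
  obtain ⟨m, hm, C, v, k, p, hvC, hpC, ⟨j1, hj1⟩, ⟨j0, hj0⟩, hp0, hvp, hvk, hvne⟩ := hT
  obtain ⟨f, hf, hr⟩ := exists_cyc (by omega) C
  have fr : ∀ i, ∃ j, f i = C j := by
    intro i
    have : f i ∈ Set.range C := by rw [← hr]; exact ⟨i, rfl⟩
    obtain ⟨j, hj⟩ := this
    exact ⟨j, hj.symm⟩
  have cr : ∀ j, ∃ i, f i = C j := by
    intro j
    have : C j ∈ Set.range f := by rw [hr]; exact ⟨j, rfl⟩
    exact this
  have hvf : ∀ i, Gᶜ.Adj v (f i) := by
    intro i; obtain ⟨j, hj⟩ := fr i; rw [hj]; exact hvC j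
  have hpf : ∀ a i, p a ≠ f i := by
    intro a i; obtain ⟨j, hj⟩ := fr i; rw [hj]; exact hpC a j
  have hpf0 : ∀ a, a ≠ 0 → ∀ i, ¬ Gᶜ.Adj (p a) (f i) := by
    intro a ha i; obtain ⟨j, hj⟩ := fr i; rw [hj]; exact hp0 a ha j
  have h1 : ∃ i, Gᶜ.Adj (p 0) (f i) := by
    obtain ⟨i, hi⟩ := cr j1; exact ⟨i, by rw [hi]; exact hj1⟩
  have h0 : ∃ i, ¬ Gᶜ.Adj (p 0) (f i) := by
    obtain ⟨i, hi⟩ := cr j0; exact ⟨i, by rw [hi]; exact hj0⟩
  have hgap := fun t => no_gap hG (n := 2 * m + 1) (by omega) hf (x := p 0) (hpf 0) t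
  obtain ⟨t, ht⟩ : ∃ t, (Gᶜ.Adj (p 0) (f t) ∧ ¬ Gᶜ.Adj (p 0) (f (t + 1)) ∧
      ¬ Gᶜ.Adj (p 0) (f (t + 2)) ∧ ¬ Gᶜ.Adj (p 0) (f (t + 3))) ∨
      (¬ Gᶜ.Adj (p 0) (f t) ∧ Gᶜ.Adj (p 0) (f (t + 1)) ∧ Gᶜ.Adj (p 0) (f (t + 2)) ∧
        ∀ i, Gᶜ.Adj (p 0) (f i) ∨ Gᶜ.Adj (p 0) (f (i + 1))) := by
    rcases exists_window ⟨m, rfl⟩ (by omega) (fun i => Gᶜ.Adj (p 0) (f i)) h1 h0 hgap with
      ⟨t, ht⟩ | ⟨t, ht⟩
    · exact ⟨t, Or.inl ht⟩
    · exact ⟨t, Or.inr ht⟩
  have w := window_of_cyc (n := 2 * m + 1) (by omega) hf t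
  let P : ℕ → V := fun i => f (t + (i : ZMod (2 * m + 1)))
  have hvP : ∀ i, i ≤ 5 → Gᶜ.Adj v (P i) := fun i _ => hvf _
  have hpP : ∀ a i, i ≤ 5 → p a ≠ P i := fun a i _ => hpf _ _
  have hpP0 : ∀ a, a ≠ 0 → ∀ i, i ≤ 5 → ¬ Gᶜ.Adj (p a) (P i) := fun a ha i _ => hpf0 a ha _
  let S : ℕ → Prop := fun i => Gᶜ.Adj (p 0) (P i)
  have hc := cond_of (s := S) (by
    rcases ht with ht | ht
    · left
      simpa [S, P] using ht
    · right
      refine ⟨by simpa [S, P] using ht.1, by simpa [S, P] using ht.2.1,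
        by simpa [S, P] using ht.2.2.1, fun i => ?_⟩
      have := ht.2.2.2 (t + (i : ZMod (2 * m + 1)))
      simp only [S, P]
      push_cast
      rwa [← add_assoc])
  have hx0 : ∀ i, i ≤ 5 → (Gᶜ.Adj (p 0) (P i) ↔
      bits (tv S 0) (tv S 1) (tv S 2) (tv S 3) (tv S 4) (tv S 5) i = true) :=
    fun i hi => bits_iff S i hi
  rcases Nat.lt_or_ge k 3 with hk3 | hk3
  · obtain rfl | rfl | rfl : k = 0 ∨ k = 1 ∨ k = 2 := by omega
    · -- tail of length one
      obtain ⟨φ, hφ⟩ := real1 w hvP (hpP 0) hx0 (by simpa using hvk) (by simpa using hvne)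
      exact six1 hφ hc
    · -- tail of length two
      obtain ⟨φ, hφ⟩ := real2 w hvP (hpP 0) (hpP 1) hx0 (hpP0 1 (by decide)) (hvp 0 (by decide))
        (by rw [p.map_adj_iff, pathGraph_adj]; decide) hvk hvne
      exact six2 hφ hc
    · -- tail of length three
      obtain ⟨φ, hφ⟩ := real3 w hvP (hpP 0) (hpP 1) (hpP 2) hx0 (hpP0 1 (by decide))
        (hpP0 2 (by decide)) (hvp 0 (by decide)) (hvp 1 (by decide))
        (by rw [p.map_adj_iff, pathGraph_adj]; decide)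
        (by rw [p.map_adj_iff, pathGraph_adj]; decide)
        (by rw [p.map_adj_iff, pathGraph_adj]; decide) hvk hvne
        (fun h => absurd (p.injective h) (by decide))
      exact six3 hφ (by simp only [cond0, hc, Bool.true_or]) (emb_of_any hφ (d32 _ _ _ _ _ _ hc))
  · -- longer tails
    obtain ⟨k, rfl⟩ := Nat.exists_eq_add_of_le' hk3
    let a3 : Fin (k + 3 + 1) := Fin.last (k + 3)
    let a2 : Fin (k + 3 + 1) := ⟨k + 2, by omega⟩
    let a1 : Fin (k + 3 + 1) := ⟨k + 1, by omega⟩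
    let a0 : Fin (k + 3 + 1) := ⟨k, by omega⟩
    have adj : ∀ a b : Fin (k + 3 + 1), Gᶜ.Adj (p a) (p b) ↔ (a.val + 1 = b.val ∨ b.val + 1 = a.val) :=
      fun a b => by rw [p.map_adj_iff, pathGraph_adj]
    have ne : ∀ a b : Fin (k + 3 + 1), a.val ≠ b.val → p a ≠ p b :=
      fun a b h h' => h (congrArg Fin.val (p.injective h'))
    have n0 : ∀ a : Fin (k + 3 + 1), a.val ≠ 0 → a ≠ 0 := fun a h h' => h (by rw [h']; rfl)
    have nl : ∀ a : Fin (k + 3 + 1), a.val ≠ k + 3 → a ≠ Fin.last (k + 3) :=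
      fun a h h' => h (by rw [h']; rfl)
    have hz : ∀ i, i ≤ 5 → (Gᶜ.Adj (p a1) (P i) ↔ bits false false false false false false i = true) := by
      intro i hi
      have : bits false false false false false false i = false := by interval_cases i <;> rfl
      rw [this]
      simpa using hpP0 a1 (n0 _ (by simp [a1])) i hi
    obtain ⟨φ, hφ⟩ := real3 w hvP (hpP a1) (hpP a2) (hpP a3) hz
      (hpP0 a2 (n0 _ (by simp [a2]))) (hpP0 a3 (n0 _ (by simp [a3])))
      (hvp a1 (nl _ (by simp [a1]))) (hvp a2 (nl _ (by simp [a2])))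
      ((adj _ _).2 (by simp [a1, a2])) ((adj _ _).2 (by simp [a2, a3]))
      (fun h => by have := (adj _ _).1 h; simp [a1, a3] at this) hvk hvne
      (ne _ _ (by simp [a1, a3]))
    refine six3 hφ rfl (fork_of_five (v := v) (w := p a0) (z := p a1) (y := p a2) (x := p a3)
      (hvp a0 (nl _ (by simp [a0]))) (hvp a1 (nl _ (by simp [a1]))) (hvp a2 (nl _ (by simp [a2])))
      ((adj _ _).2 (by simp [a0, a1])) ((adj _ _).2 (by simp [a1, a2]))
      ((adj _ _).2 (by simp [a2, a3])) hvk hvne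
      (fun h => by have := (adj _ _).1 h; simp [a0, a2] at this; omega) (ne _ _ (by simp [a0, a2]))
      (fun h => by have := (adj _ _).1 h; simp [a0, a3] at this; omega) (ne _ _ (by simp [a0, a3]))
      (fun h => by have := (adj _ _).1 h; simp [a1, a3] at this)
      (ne _ _ (by simp [a1, a3])))

end Pool.Agent.PerfDiv
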