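import Pool.Agent.Lib_MP_85471b_kf.Defs

/-!
# Perfect divisibility of odd-hole-free graphs: proof
-/

set_option autoImplicit false

namespace Pool.Agent.PerfDiv

open SimpleGraph

universe u

variable {V : Type u}

/-- induced copy of `P` in `G[A]`, as a function -/
def Copy {n : ℕ} (P : SimpleGraph (Fin n)) (G : SimpleGraph V) (A : Set V) (c : Fin n → V) : Prop :=
  Function.Injective c ∧ (∀ i, c i ∈ A) ∧ ∀ i j, G.Adj (c i) (c j) ↔ P.Adj i j

lemma copy_of_emb {n : ℕ} {P : SimpleGraph (Fin n)} {G : SimpleGraph V} {A : Set V}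
    (f : P ↪g G.induce A) : Copy P G A (fun i => (f i : V)) := by
  refine ⟨fun i j h => f.injective (Subtype.ext h), fun i => (f i).2, fun i j => ?_⟩
  have := f.map_adj_iff (v := i) (w := j)
  simpa using this

lemma emb_of_copy {n : ℕ} {P : SimpleGraph (Fin n)} {G : SimpleGraph V} {A : Set V}
    {c : Fin n → V} (h : Copy P G A c) : Nonempty (P ↪g G.induce A) :=
  ⟨⟨⟨fun i => ⟨c i, h.2.1 i⟩, fun i j hij => h.1 (congrArg Subtype.val hij)⟩, by
    intro i j
    simpa using h.2.2 i j⟩⟩

lemma emb_univ_of_copy {n : ℕ} {P : SimpleGraph (Fin n)} {G : SimpleGraph V} {A : Set V}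
    {c : Fin n → V} (h : Copy P G A c) : ∃ f : P ↪g G, ∀ i, f i = c i :=
  ⟨⟨⟨c, h.1⟩, by
    intro i j
    simpa using h.2.2 i j⟩, fun _ => rfl⟩

/-- the adjacency of the cycle in terms of differences -/
lemma cyc_adj {n : ℕ} (hn : 2 ≤ n) (i δ : ℕ) (h0 : 0 < δ) (h1 : δ < n) :
    (cycleGraph n).Adj ⟨i % n, Nat.mod_lt _ (by omega)⟩ ⟨(i + δ) % n, Nat.mod_lt _ (by omega)⟩ ↔
      δ = 1 ∨ δ = n - 1 := by
  rw [cycleGraph_adj']
  have ha : i % n < n := Nat.mod_lt _ (by omega)
  have hb : (i + δ) % n = if i % n + δ < n then i % n + δ else i % n + δ - n := by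
    rw [Nat.add_mod, Nat.mod_eq_of_lt h1]
    split_ifs with h
    · exact Nat.mod_eq_of_lt h
    · rw [Nat.mod_eq_sub_mod (by omega), Nat.mod_eq_of_lt (by omega)]
  have e1 : ((⟨i % n, Nat.mod_lt _ (by omega)⟩ : Fin n) -
      ⟨(i + δ) % n, Nat.mod_lt _ (by omega)⟩).val = n - δ := by
    rw [Fin.sub_def]
    simp only
    rw [hb]
    split_ifs with h
    · rw [show n - (i % n + δ) + i % n = n - δ by omega]
      exact Nat.mod_eq_of_lt (by omega)
    · rw [show n - (i % n + δ - n) + i % n = n + (n - δ) by omega, Nat.add_mod_left]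
      exact Nat.mod_eq_of_lt (by omega)
  have e2 : ((⟨(i + δ) % n, Nat.mod_lt _ (by omega)⟩ : Fin n) -
      ⟨i % n, Nat.mod_lt _ (by omega)⟩).val = δ := by
    rw [Fin.sub_def]
    simp only
    rw [hb]
    split_ifs with h
    · rw [show n - i % n + (i % n + δ) = n + δ by omega, Nat.add_mod_left]
      exact Nat.mod_eq_of_lt (by omega)
    · rw [show n - i % n + (i % n + δ - n) = δ by omega]
      exact Nat.mod_eq_of_lt (by omega)
  rw [e1, e2]
  omega

/-- periodic indices -/
def ix {n : ℕ} (hn : 0 < n) (i : ℕ) : Fin n := ⟨i % n, Nat.mod_lt _ hn⟩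

lemma ix_surj {n : ℕ} (hn : 0 < n) (j : Fin n) : ix hn j.val = j := by
  apply Fin.ext
  simp [ix, Nat.mod_eq_of_lt j.2]

lemma ix_ne {n : ℕ} (hn : 0 < n) (i δ : ℕ) (h0 : 0 < δ) (h1 : δ < n) :
    ix hn i ≠ ix hn (i + δ) := by
  intro h
  have h2 : i % n = (i + δ) % n := congrArg Fin.val h
  have h3 : (i + δ) % n = if i % n + δ < n then i % n + δ else i % n + δ - n := by
    rw [Nat.add_mod, Nat.mod_eq_of_lt h1]
    have ha : i % n < n := Nat.mod_lt _ hn
    split_ifs with h
    · exact Nat.mod_eq_of_lt h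
    · rw [Nat.mod_eq_sub_mod (by omega), Nat.mod_eq_of_lt (by omega)]
  rw [h3] at h2
  have ha : i % n < n := Nat.mod_lt _ hn
  split_ifs at h2 <;> omega

lemma ix_adj {n : ℕ} (hn : 2 ≤ n) (i δ : ℕ) (h0 : 0 < δ) (h1 : δ < n) :
    (cycleGraph n).Adj (ix (by omega) i) (ix (by omega) (i + δ)) ↔ δ = 1 ∨ δ = n - 1 :=
  cyc_adj hn i δ h0 h1

lemma ix_period {n : ℕ} (hn : 0 < n) (i : ℕ) : ix hn (i + n) = ix hn i := by
  apply Fin.ext
  simp [ix]

/-- a change from `T` to its complement -/
lemma exists_change {n : ℕ} (hn : 0 < n) (T : Set (Fin n)) (h1 : T.Nonempty) (h2 : T ≠ Set.univ) :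
    ∃ i, ix hn i ∈ T ∧ ix hn (i + 1) ∉ T := by
  by_contra hcon
  push Not at hcon
  apply h2
  obtain ⟨j, hj⟩ := h1
  have h3 : ∀ m, ix hn (j.val + m) ∈ T := by
    intro m
    induction m with
    | zero => rw [Nat.add_zero, ix_surj]; exact hj
    | succ m ih => exact hcon _ ih
  ext l
  simp only [Set.mem_univ, iff_true]
  have h4 := h3 (n - j.val + l.val)
  rw [show j.val + (n - j.val + l.val) = l.val + n by have := j.2; omega, ix_period, ix_surj] at h4
  exact h4

/-- cycles of length at least 5 are prime -/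
lemma cycle_prime {n : ℕ} (hn : 5 ≤ n) (T : Set (Fin n)) (a b : Fin n) (ha : a ∈ T) (hb : b ∈ T)
    (hab : a ≠ b) (hT : T ≠ Set.univ) :
    ∃ i ∉ T, ∃ p ∈ T, ∃ q ∈ T, (cycleGraph n).Adj i p ∧ ¬ (cycleGraph n).Adj i q := by
  have hn0 : 0 < n := by omega
  obtain ⟨i, hi, hi1⟩ := exists_change hn0 T ⟨a, ha⟩ hT
  by_contra hcon
  push Not at hcon
  -- all elements of `T` are adjacent to `i + 1`
  have h1 : ∀ q ∈ T, (cycleGraph n).Adj (ix hn0 (i + 1)) q := by
    intro q hq
    refine hcon _ hi1 _ hi q hq ?_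
    rw [SimpleGraph.adj_comm]
    exact (ix_adj (by omega) i 1 (by omega) (by omega)).2 (Or.inl rfl)
  -- so `T ⊆ {i, i + 2}`
  have h2 : ∀ q ∈ T, q = ix hn0 i ∨ q = ix hn0 (i + 2) := by
    intro q hq
    have h3 := h1 q hq
    -- write `q = i + 1 + δ`
    obtain ⟨δ, hδ, hqδ⟩ : ∃ δ < n, q = ix hn0 (i + 1 + δ) := by
      refine ⟨(q.val + (n - (i + 1) % n)) % n, Nat.mod_lt _ hn0, ?_⟩
      apply Fin.ext
      simp only [ix]
      rw [Nat.add_mod_mod, ← Nat.mod_add_mod, show (i + 1) % n + (q.val + (n - (i + 1) % n)) =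
        q.val + n by have := Nat.mod_lt (i + 1) hn0; omega, Nat.add_mod_right,
        Nat.mod_eq_of_lt q.2]
    rcases Nat.eq_zero_or_pos δ with h0 | h0
    · subst h0
      rw [Nat.add_zero] at hqδ
      rw [hqδ] at h3
      exact absurd h3 ((cycleGraph n).loopless.irrefl _)
    · rw [hqδ, ix_adj (by omega) (i + 1) δ h0 hδ] at h3
      rcases h3 with h3 | h3
      · right
        rw [hqδ, h3]
      · left
        rw [hqδ, h3, show i + 1 + (n - 1) = i + n by omega, ix_period]
  have h5 : ix hn0 (i + 2) ∈ T := by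
    rcases h2 a ha with h | h
    · rcases h2 b hb with h' | h'
      · exact absurd (h.trans h'.symm) hab
      · rw [← h']; exact hb
    · rw [← h]; exact ha
  -- the vertex `i - 1`
  have h6 : ix hn0 (i + (n - 1)) ∉ T := by
    intro h
    rcases h2 _ h with h' | h'
    · exact ix_ne hn0 i (n - 1) (by omega) (by omega) h'.symm
    · refine ix_ne hn0 (i + 2) (n - 3) (by omega) (by omega) ?_
      rw [← h', show i + 2 + (n - 3) = i + (n - 1) by omega]
  have h7 : (cycleGraph n).Adj (ix hn0 (i + (n - 1))) (ix hn0 i) := by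
    rw [SimpleGraph.adj_comm]
    exact (ix_adj (by omega) i (n - 1) (by omega) (by omega)).2 (Or.inr rfl)
  have h8 := hcon _ h6 _ hi _ h5 h7
  rw [SimpleGraph.adj_comm, show i + (n - 1) = i + 2 + (n - 3) by omega,
    ix_adj (by omega) (i + 2) (n - 3) (by omega) (by omega)] at h8
  omega

/-- the same for a cycle or the complement of a cycle -/
def PrimeGraph {n : ℕ} (P : SimpleGraph (Fin n)) : Prop :=
  ∀ T : Set (Fin n), ∀ a b : Fin n, a ∈ T → b ∈ T → a ≠ b → T ≠ Set.univ →
    ∃ i ∉ T, ∃ p ∈ T, ∃ q ∈ T, P.Adj i p ∧ ¬ P.Adj i q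

lemma prime_cycle {n : ℕ} (hn : 5 ≤ n) : PrimeGraph (cycleGraph n) :=
  fun T a b ha hb hab hT => cycle_prime hn T a b ha hb hab hT

lemma prime_compl {n : ℕ} (hn : 5 ≤ n) : PrimeGraph (cycleGraph n)ᶜ := by
  intro T a b ha hb hab hT
  obtain ⟨i, hi, p, hp, q, hq, h1, h2⟩ := cycle_prime hn T a b ha hb hab hT
  refine ⟨i, hi, q, hq, p, hp, ?_, ?_⟩
  · rw [SimpleGraph.compl_adj]
    exact ⟨fun h => hi (h ▸ hq), h2⟩
  · rw [SimpleGraph.compl_adj]
    exact fun h => h.2 h1

/-- `X` is a homogeneous set in `S` -/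
def Homog (G : SimpleGraph V) (S X : Set V) : Prop :=
  ∀ u ∈ S, u ∉ X → (∀ x ∈ X, G.Adj u x) ∨ ∀ x ∈ X, ¬ G.Adj u x

/-- substitution preserves copies of prime graphs -/
lemma copy_subst {n : ℕ} {P : SimpleGraph (Fin n)} (hP : PrimeGraph P) {G : SimpleGraph V}
    {S X A' AX : Set V} {x0 : V} (hX : Homog G S X) (hx0 : x0 ∈ X) (hA' : A' ⊆ S)
    (hAX : AX ⊆ X) (hxA : x0 ∈ A') (hA'X : ∀ x ∈ A', x ∈ X → x = x0) {c : Fin n → V}
    (hc : Copy P G ((A' \ {x0}) ∪ AX) c) :
    (∃ c', Copy P G A' c') ∨ ∃ c', Copy P G AX c' := by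
  classical
  by_cases hall : ∀ i, c i ∈ X
  · right
    refine ⟨c, hc.1, fun i => ?_, hc.2.2⟩
    rcases hc.2.1 i with h | h
    · exact absurd (hA'X _ h.1 (hall i)) h.2
    · exact h
  · left
    push Not at hall
    obtain ⟨j, hj⟩ := hall
    have hT : {i | c i ∈ X} ≠ Set.univ := fun h => hj (by
      have : j ∈ {i | c i ∈ X} := by rw [h]; trivial
      exact this)
    have hmem : ∀ i, c i ∉ X → c i ∈ A' ∧ c i ∈ S := by
      intro i hi
      rcases hc.2.1 i with h | h
      · exact ⟨h.1, hA' h.1⟩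
      · exact absurd (hAX h) hi
    have huniq : ∀ a b, c a ∈ X → c b ∈ X → a = b := by
      intro a b ha hb
      by_contra hab
      obtain ⟨i, hi, p, hp, q, hq, h1, h2⟩ := hP {i | c i ∈ X} a b ha hb hab hT
      rw [← hc.2.2] at h1 h2
      rcases hX (c i) (hmem i hi).2 hi with h | h
      · exact h2 (h _ hq)
      · exact h _ hp h1
    refine ⟨fun i => if c i ∈ X then x0 else c i, ?_, ?_, ?_⟩
    · intro a b hab
      simp only at hab
      split_ifs at hab with ha hb hb
      · exact huniq a b ha hb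
      · exact absurd (hab ▸ hx0) hb
      · exact absurd (hab ▸ hx0) ha
      · exact hc.1 hab
    · intro i
      simp only
      split_ifs with h
      · exact hxA
      · exact (hmem i h).1
    · intro a b
      simp only
      split_ifs with ha hb hb
      · rw [huniq a b ha hb]
        simp
      · have h1 : G.Adj (c b) x0 ↔ G.Adj (c b) (c a) := by
          rcases hX (c b) (hmem b hb).2 hb with h | h
          · exact ⟨fun _ => h _ ha, fun _ => h _ hx0⟩
          · exact ⟨fun h' => absurd h' (h _ hx0), fun h' => absurd h' (h _ ha)⟩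
        rw [G.adj_comm, h1, G.adj_comm, hc.2.2]
      · have h1 : G.Adj (c a) x0 ↔ G.Adj (c a) (c b) := by
          rcases hX (c a) (hmem a ha).2 ha with h | h
          · exact ⟨fun _ => h _ hb, fun _ => h _ hx0⟩
          · exact ⟨fun h' => absurd h' (h _ hx0), fun h' => absurd h' (h _ hb)⟩
        rw [h1, hc.2.2]
      · exact hc.2.2 a b

lemma berge_iff (G : SimpleGraph V) (A : Set V) : Berge G A ↔
    ∀ k, 2 ≤ k → (¬ ∃ c, Copy (cycleGraph (2 * k + 1)) G A c) ∧
      ¬ ∃ c, Copy (cycleGraph (2 * k + 1))ᶜ G A c := by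
  constructor
  · intro h k hk
    refine ⟨fun ⟨c, hc⟩ => ?_, fun ⟨c, hc⟩ => ?_⟩
    · exact (not_isEmpty_iff.2 (emb_of_copy hc)) (h k hk).1
    · exact (not_isEmpty_iff.2 (emb_of_copy hc)) (h k hk).2
  · intro h k hk
    refine ⟨⟨fun f => ?_⟩, ⟨fun f => ?_⟩⟩
    · exact (h k hk).1 ⟨_, copy_of_emb f⟩
    · exact (h k hk).2 ⟨_, copy_of_emb f⟩

lemma berge_subst {G : SimpleGraph V} {S X A' AX : Set V} {x0 : V} (hX : Homog G S X)
    (hx0 : x0 ∈ X) (hA' : A' ⊆ S) (hAX : AX ⊆ X) (hxA : x0 ∈ A')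
    (hA'X : ∀ x ∈ A', x ∈ X → x = x0) (h1 : Berge G A') (h2 : Berge G AX) :
    Berge G ((A' \ {x0}) ∪ AX) := by
  rw [berge_iff] at *
  intro k hk
  refine ⟨fun ⟨c, hc⟩ => ?_, fun ⟨c, hc⟩ => ?_⟩
  · rcases copy_subst (prime_cycle (by omega)) hX hx0 hA' hAX hxA hA'X hc with h | h
    · exact (h1 k hk).1 h
    · exact (h2 k hk).1 h
  · rcases copy_subst (prime_compl (by omega)) hX hx0 hA' hAX hxA hA'X hc with h | h
    · exact (h1 k hk).2 h
    · exact (h2 k hk).2 h

lemma copy_mono {n : ℕ} {P : SimpleGraph (Fin n)} {G : SimpleGraph V} {A B : Set V}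
    {c : Fin n → V} (h : Copy P G A c) (hAB : A ⊆ B) : Copy P G B c :=
  ⟨h.1, fun i => hAB (h.2.1 i), h.2.2⟩

/-- an antihole of length 5 is a hole of length 5 -/
lemma copy_five {G : SimpleGraph V} {A : Set V} {c : Fin (2 * 2 + 1) → V}
    (h : Copy (cycleGraph (2 * 2 + 1))ᶜ G A c) : ∃ c', Copy (cycleGraph (2 * 2 + 1)) G A c' := by
  refine ⟨fun i => c (2 * i), ?_, fun i => h.2.1 _, ?_⟩
  · intro i j hij
    have h1 : 2 * i = 2 * j := h.1 hij
    clear hij h
    revert i j
    decide
  · intro i j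
    rw [h.2.2]
    revert i j
    decide

/-- the closure used in the main lemma -/
inductive Clos {n : ℕ} (G : SimpleGraph V) (S : Set V) (c : Fin n → V) : V → Prop
  | base (i : Fin n) : Clos G S c (c i)
  | step (x y : V) : Clos G S c x → y ∈ S → (∃ i, G.Adj y (c i)) → y ≠ x → ¬ G.Adj y x →
      Clos G S c y

/-- paths of the complement which start next to the antihole -/
def Chain {n : ℕ} (G : SimpleGraph V) (c : Fin n → V) (k : ℕ) (p : ℕ → V) : Prop :=
  (∀ i ≤ k, ∃ j, G.Adj (p i) (c j)) ∧ (∀ j, p 0 ≠ c j) ∧ (∃ j, ¬ G.Adj (p 0) (c j)) ∧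
    ∀ i < k, p i ≠ p (i + 1) ∧ ¬ G.Adj (p i) (p (i + 1))

lemma clos_chain {n : ℕ} {G : SimpleGraph V} {S : Set V} {c : Fin n → V}
    (hc : ∀ i, c i ∈ S ∧ ∃ j, G.Adj (c i) (c j)) {x : V} (hx : Clos G S c x) :
    (x ∈ S ∧ ∃ j, G.Adj x (c j)) ∧ ((∃ j, x = c j) ∨ ∃ k p, Chain G c k p ∧ p k = x) := by
  induction hx with
  | base i => exact ⟨hc i, Or.inl ⟨i, rfl⟩⟩
  | step x y _ hyS hyC hne hnadj ih =>
    refine ⟨⟨hyS, hyC⟩, ?_⟩
    by_cases hy : ∃ j, y = c j
    · exact Or.inl hy
    · push Not at hy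
      right
      rcases ih.2 with ⟨j, hj⟩ | ⟨k, p, hp, hpk⟩
      · exact ⟨0, fun _ => y, ⟨fun _ _ => hyC, hy, ⟨j, by rw [← hj]; exact hnadj⟩,
          fun i hi => absurd hi (Nat.not_lt_zero i)⟩, rfl⟩
      · refine ⟨k + 1, fun t => if t ≤ k then p t else y, ⟨?_, ?_, ?_, ?_⟩, by simp⟩
        · intro i hi
          by_cases h : i ≤ k
          · simp only [h, if_true]
            exact hp.1 i h
          · simp only [h, if_false]
            exact hyC
        · simpa using hp.2.1
        · simpa using hp.2.2.1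
        · intro i hi
          beta_reduce
          by_cases h : i < k
          · rw [if_pos (show i ≤ k by omega), if_pos (show i + 1 ≤ k by omega)]
            exact hp.2.2.2 i h
          · obtain rfl : i = k := by omega
            rw [if_pos le_rfl, if_neg (by omega), hpk]
            exact ⟨hne.symm, fun h => hnadj h.symm⟩

/-- a shortest path to a vertex seen by `u` gives a tailed odd wheel -/
lemma wheel_of_chain {G : SimpleGraph V} {m : ℕ} (hm : 3 ≤ m) {c : Fin (2 * m + 1) → V}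
    (hinj : Function.Injective c)
    (hadj : ∀ i j, G.Adj (c i) (c j) ↔ (cycleGraph (2 * m + 1))ᶜ.Adj i j)
    (hnb : ∀ i, ∃ j, G.Adj (c i) (c j))
    (h : ∃ k u p, (∀ i, ¬ G.Adj u (c i)) ∧ Chain G c k p ∧ G.Adj u (p k)) :
    TailedOddWheel Gᶜ := by
  classical
  obtain ⟨u, p, hu, hp, hup⟩ := Nat.find_spec h
  have hmin : ∀ k' < Nat.find h, ¬ ∃ u p, (∀ i, ¬ G.Adj u (c i)) ∧ Chain G c k' p ∧ G.Adj u (p k') :=
    fun k' hk' => Nat.find_min h hk'
  generalize Nat.find h = k at hp hup hmin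
  have huc : ∀ i, u ≠ c i := by
    rintro i rfl
    obtain ⟨j, hj⟩ := hnb i
    exact hu j hj
  -- (a) prefixes
  have ha : ∀ j < k, ¬ G.Adj u (p j) := by
    intro j hj h1
    exact hmin j hj ⟨u, p, hu, ⟨fun i hi => hp.1 i (by omega), hp.2.1, hp.2.2.1,
      fun i hi => hp.2.2.2 i (by omega)⟩, h1⟩
  -- (b) suffixes
  have hb : ∀ j, 1 ≤ j → j ≤ k → (∀ l, p j ≠ c l) → ∀ l, G.Adj (p j) (c l) := by
    intro j hj1 hjk hjc l
    by_contra hl
    refine hmin (k - j) (by omega) ⟨u, fun t => p (t + j), hu, ⟨?_, ?_, ?_, ?_⟩, ?_⟩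
    · intro i hi
      exact hp.1 (i + j) (by omega)
    · simpa using hjc
    · exact ⟨l, by simpa using hl⟩
    · intro i hi
      have := hp.2.2.2 (i + j) (by omega)
      rw [show i + j + 1 = i + 1 + j by omega] at this
      exact this
    · simp only
      rw [Nat.sub_add_cancel hjk]
      exact hup
  -- (c) the path avoids the antihole
  have hc' : ∀ t ≤ k, ∀ l, p (k - t) ≠ c l := by
    intro t
    induction t with
    | zero =>
      intro _ l h1
      rw [Nat.sub_zero] at h1
      exact hu l (h1 ▸ hup)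
    | succ t ih =>
      intro ht l h1
      have h2 := ih (by omega)
      have h3 := hb (k - t) (by omega) (by omega) h2 l
      have h4 := hp.2.2.2 (k - (t + 1)) (by omega)
      rw [show k - (t + 1) + 1 = k - t by omega, h1] at h4
      exact h4.2 h3.symm
  have hc'' : ∀ j ≤ k, ∀ l, p j ≠ c l := by
    intro j hj l
    have := hc' (k - j) (by omega) l
    rwa [show k - (k - j) = j by omega] at this
  -- (d) shortcuts
  have hd : ∀ i j, i + 2 ≤ j → j ≤ k → G.Adj (p i) (p j) := by
    intro i j hij hjk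
    by_contra hn
    by_cases he : p i = p j
    · refine hmin (k - (j - i)) (by omega)
        ⟨u, fun t => if t ≤ i then p t else p (t + (j - i)), hu, ⟨?_, ?_, ?_, ?_⟩, ?_⟩
      · intro s hs
        by_cases h1 : s ≤ i
        · simp only [h1, if_true]
          exact hp.1 s (by omega)
        · simp only [h1, if_false]
          exact hp.1 _ (by omega)
      · simpa using hp.2.1
      · simpa using hp.2.2.1
      · intro s hs
        beta_reduce
        rcases Nat.lt_trichotomy s i with h1 | h1 | h1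
        · rw [if_pos (show s ≤ i by omega), if_pos (show s + 1 ≤ i by omega)]
          exact hp.2.2.2 s (by omega)
        · subst h1
          rw [if_pos le_rfl, if_neg (by omega), he, show s + 1 + (j - s) = j + 1 by omega]
          exact hp.2.2.2 j (by omega)
        · rw [if_neg (by omega), if_neg (by omega), show s + 1 + (j - i) = s + (j - i) + 1 by omega]
          exact hp.2.2.2 _ (by omega)
      · beta_reduce
        by_cases h1 : j = k
        · subst h1
          rw [if_pos (by omega), show j - (j - i) = i by omega, he]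
          exact hup
        · rw [if_neg (by omega), Nat.sub_add_cancel (by omega)]
          exact hup
    · refine hmin (k - (j - i - 1)) (by omega)
        ⟨u, fun t => if t ≤ i then p t else p (t + (j - i - 1)), hu, ⟨?_, ?_, ?_, ?_⟩, ?_⟩
      · intro s hs
        by_cases h1 : s ≤ i
        · simp only [h1, if_true]
          exact hp.1 s (by omega)
        · simp only [h1, if_false]
          exact hp.1 _ (by omega)
      · simpa using hp.2.1
      · simpa using hp.2.2.1
      · intro s hs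
        beta_reduce
        rcases Nat.lt_trichotomy s i with h1 | h1 | h1
        · rw [if_pos (show s ≤ i by omega), if_pos (show s + 1 ≤ i by omega)]
          exact hp.2.2.2 s (by omega)
        · subst h1
          rw [if_pos le_rfl, if_neg (by omega), show s + 1 + (j - s - 1) = j by omega]
          exact ⟨he, hn⟩
        · rw [if_neg (by omega), if_neg (by omega),
            show s + 1 + (j - i - 1) = s + (j - i - 1) + 1 by omega]
          exact hp.2.2.2 _ (by omega)
      · beta_reduce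
        rw [if_neg (by omega), Nat.sub_add_cancel (by omega)]
        exact hup
  -- the path is injective
  have hne : ∀ i j, i < j → j ≤ k → p i ≠ p j := by
    intro i j hij hjk
    rcases Nat.lt_or_ge (i + 1) j with h1 | h1
    · exact (hd i j (by omega) hjk).ne
    · obtain rfl : j = i + 1 := by omega
      exact (hp.2.2.2 i (by omega)).1
  -- the path as an embedding
  let P : pathGraph (k + 1) ↪g Gᶜ :=
    ⟨⟨fun i => p i.val, fun i j hij => by
      by_contra hne'
      rcases Nat.lt_or_gt_of_ne (fun h => hne' (Fin.ext h)) with h1 | h1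
      · exact hne i.val j.val h1 (by have := j.2; omega) hij
      · exact hne j.val i.val h1 (by have := i.2; omega) hij.symm⟩, by
      intro i j
      simp only [Function.Embedding.coeFn_mk, SimpleGraph.compl_adj, pathGraph_adj]
      have hi := i.2
      have hj := j.2
      constructor
      · rintro ⟨h1, h2⟩
        by_contra hcon
        push Not at hcon
        rcases Nat.lt_trichotomy i.val j.val with h3 | h3 | h3
        · exact h2 (hd i.val j.val (by omega) (by omega))
        · exact h1 (by rw [h3])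
        · exact h2 (hd j.val i.val (by omega) (by omega)).symm
      · rintro (h1 | h1)
        · rw [← h1]
          exact hp.2.2.2 i.val (by omega)
        · rw [← h1]
          have := hp.2.2.2 j.val (by omega)
          exact ⟨this.1.symm, fun h => this.2 h.symm⟩⟩
  let C : cycleGraph (2 * m + 1) ↪g Gᶜ :=
    ⟨⟨c, hinj⟩, by
      intro i j
      simp only [Function.Embedding.coeFn_mk, SimpleGraph.compl_adj, hadj]
      constructor
      · rintro ⟨h1, h2⟩
        by_contra h3
        exact h2 ⟨fun h => h1 (by rw [h]), h3⟩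
      · intro h1
        exact ⟨fun h => h1.ne (hinj h), fun h => h.2 h1⟩⟩
  refine ⟨m, hm, C, u, k, P, ?_, ?_, ?_, ?_, ?_, ?_, ?_, ?_⟩
  · intro i
    rw [SimpleGraph.compl_adj]
    exact ⟨huc i, hu i⟩
  · intro i j
    exact hc'' i.val (by have := i.2; omega) j
  · obtain ⟨j, hj⟩ := hp.2.2.1
    refine ⟨j, ?_⟩
    rw [SimpleGraph.compl_adj]
    exact ⟨hp.2.1 j, hj⟩
  · obtain ⟨j, hj⟩ := hp.1 0 (by omega)
    refine ⟨j, ?_⟩
    rw [SimpleGraph.compl_adj]
    exact fun h => h.2 hj
  · intro i hi j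
    rw [SimpleGraph.compl_adj]
    intro h
    have hi' : 1 ≤ i.val := by
      rcases Nat.eq_zero_or_pos i.val with h1 | h1
      · exact absurd (Fin.ext h1) hi
      · exact h1
    exact h.2 (hb i.val hi' (by have := i.2; omega) (hc'' i.val (by have := i.2; omega)) j)
  · intro i hi
    rw [SimpleGraph.compl_adj]
    have hi' : i.val < k := by
      have h1 := i.2
      have h2 : i.val ≠ k := fun h => hi (Fin.ext h)
      omega
    refine ⟨?_, ha i.val hi'⟩
    intro h
    obtain ⟨j, hj⟩ := hp.1 i.val (by omega)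
    exact hu j (by rw [h]; exact hj)
  · rw [SimpleGraph.compl_adj]
    exact fun h => h.2 hup
  · exact hup.ne

/-- in a prime set `S` the non-neighbours of a vertex induce a Berge graph -/
lemma berge_nonnbrs {G : SimpleGraph V} (hG : OddHoleFree G) (hL : ¬ TailedOddWheel Gᶜ) {S : Set V}
    (hS : ∀ X ⊆ S, (∃ a ∈ X, ∃ b ∈ X, a ≠ b) → X ≠ S → ¬ Homog G S X) {v : V} (hv : v ∈ S) :
    Berge G {u | u ∈ S ∧ ¬ G.Adj v u} := by
  rw [berge_iff]
  have hhole : ∀ k, 2 ≤ k → ∀ A : Set V, ¬ ∃ c, Copy (cycleGraph (2 * k + 1)) G A c := by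
    rintro k hk A ⟨c, hc⟩
    obtain ⟨f, -⟩ := emb_univ_of_copy hc
    exact (hG k hk).false f
  intro k hk
  refine ⟨hhole k hk _, ?_⟩
  rintro ⟨c, hc⟩
  rcases Nat.lt_or_ge k 3 with hk3 | hk3
  · obtain rfl : k = 2 := by omega
    exact hhole 2 hk _ (copy_five hc)
  have hn0 : 0 < 2 * k + 1 := by omega
  -- every vertex of the antihole has a neighbour in it
  have hnb : ∀ i, ∃ j, G.Adj (c i) (c j) := by
    intro i
    refine ⟨ix hn0 (i.val + 2), ?_⟩
    rw [hc.2.2]
    have h1 := ix_surj hn0 i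
    rw [← h1, SimpleGraph.compl_adj]
    simp only [h1]
    have h2 := ix_ne hn0 i.val 2 (by omega) (by omega)
    have h3 := ix_adj (n := 2 * k + 1) (by omega) i.val 2 (by omega) (by omega)
    rw [h1] at h2 h3
    refine ⟨h2, fun h => ?_⟩
    have := h3.1 h
    omega
  have key := fun x (hx : Clos G S c x) =>
    clos_chain (fun i => ⟨(hc.2.1 i).1, hnb i⟩) hx
  have hvC : ∀ i, ¬ G.Adj v (c i) := fun i => (hc.2.1 i).2
  refine hS {x | Clos G S c x} (fun x hx => (key x hx).1.1) ?_ ?_ ?_
  · refine ⟨c (ix hn0 0), Clos.base _, c (ix hn0 (0 + 1)), Clos.base _, fun h => ?_⟩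
    exact ix_ne hn0 0 1 (by omega) (by omega) (hc.1 h)
  · intro h
    have h1 : v ∈ {x | Clos G S c x} := by rw [h]; exact hv
    obtain ⟨i, hi⟩ := (key v h1).1.2
    exact hvC i hi
  · intro u huS huX
    by_cases hu : ∀ i, ¬ G.Adj u (c i)
    · right
      intro x hx hux
      refine hL (wheel_of_chain hk3 hc.1 hc.2.2 hnb ?_)
      rcases (key x hx).2 with ⟨j, rfl⟩ | ⟨k', p, hp, rfl⟩
      · exact absurd hux (hu j)
      · exact ⟨k', u, p, hu, hp, hux⟩
    · left
      push Not at hu
      intro x hx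
      by_contra hux
      refine huX (Clos.step x u hx huS hu ?_ hux)
      rintro rfl
      exact huX hx

/-- clique weights after replacing a vertex by a clique of a homogeneous set -/
lemma clique_conv [DecidableEq V] {G : SimpleGraph V} {S X : Finset V} {x0 : V}
    (hX : Homog G (S : Set V) (X : Set V)) (hx0 : x0 ∈ X) (w w' : V → ℝ)
    (hw' : ∀ u, u ≠ x0 → w' u = w u) {KX : Finset V} (hKX : KX ⊆ X)
    (hKXc : G.IsClique (KX : Set V)) (hw0 : w' x0 = ∑ v ∈ KX, w v) (hXS : X ⊆ S)
    {K : Finset V} (hK : K ⊆ (S \ X) ∪ {x0}) (hKc : G.IsClique (K : Set V)) :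
    ∃ K' ⊆ S, G.IsClique (K' : Set V) ∧ ∑ v ∈ K, w' v = ∑ v ∈ K', w v := by
  by_cases h : x0 ∈ K
  · have hmem : ∀ u ∈ K.erase x0, u ∈ S ∧ u ∉ X := by
      intro u hu
      rw [Finset.mem_erase] at hu
      have := hK hu.2
      rw [Finset.mem_union, Finset.mem_sdiff, Finset.mem_singleton] at this
      rcases this with h1 | h1
      · exact h1
      · exact absurd h1 hu.1
    have hcomp : ∀ u ∈ K.erase x0, ∀ x ∈ X, G.Adj u x := by
      intro u hu
      have h1 := hmem u hu
      rcases hX u (Finset.mem_coe.2 h1.1) (fun h => h1.2 (Finset.mem_coe.1 h)) with h2 | h2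
      · intro x hx
        exact h2 x (Finset.mem_coe.2 hx)
      · exfalso
        rw [Finset.mem_erase] at hu
        exact h2 x0 (Finset.mem_coe.2 hx0) (hKc (Finset.mem_coe.2 hu.2) (Finset.mem_coe.2 h) hu.1)
    have hdisj : Disjoint (K.erase x0) KX := by
      rw [Finset.disjoint_left]
      intro u hu hu2
      exact (hmem u hu).2 (hKX hu2)
    refine ⟨K.erase x0 ∪ KX, ?_, ?_, ?_⟩
    · intro u hu
      rcases Finset.mem_union.1 hu with h1 | h1
      · exact (hmem u h1).1
      · exact hXS (hKX h1)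
    · intro a ha b hb hab
      rw [Finset.mem_coe, Finset.mem_union] at ha hb
      rcases ha with ha | ha
      · rcases hb with hb | hb
        · exact hKc (Finset.mem_coe.2 (Finset.mem_of_mem_erase ha))
            (Finset.mem_coe.2 (Finset.mem_of_mem_erase hb)) hab
        · exact hcomp a ha b (hKX hb)
      · rcases hb with hb | hb
        · exact (hcomp b hb a (hKX ha)).symm
        · exact hKXc (Finset.mem_coe.2 ha) (Finset.mem_coe.2 hb) hab
    · rw [Finset.sum_union hdisj, ← hw0, ← Finset.sum_erase_add K w' h]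
      congr 1
      refine Finset.sum_congr rfl fun u hu => hw' u (Finset.ne_of_mem_erase hu)
  · refine ⟨K, ?_, hKc, ?_⟩
    · intro u hu
      have := hK hu
      rw [Finset.mem_union, Finset.mem_sdiff, Finset.mem_singleton] at this
      rcases this with h1 | h1
      · exact h1.1
      · exact absurd (h1 ▸ hu) h
    · refine Finset.sum_congr rfl fun u hu => hw' u ?_
      rintro rfl
      exact h hu

theorem weightDivisible_of_noWheel {G : SimpleGraph V} (hG : OddHoleFree G)
    (hL : ¬ TailedOddWheel Gᶜ) : WeightDivisible G := by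
  classical
  suffices H : ∀ n : ℕ, ∀ S : Finset V, S.card = n → S.Nonempty → ∀ w : V → ℝ,
      (∀ v, 0 < w v) → ∃ A ⊆ S, Berge G A ∧
      ∀ K : Finset V, K ⊆ S → Disjoint K A → G.IsClique K →
        ∃ K' ⊆ S, G.IsClique (K' : Set V) ∧ ∑ v ∈ K, w v < ∑ v ∈ K', w v by
    intro S hS w hw
    exact H S.card S rfl hS w hw
  intro n
  induction n using Nat.strong_induction_on with
  | _ n ih =>
  intro S hSn hS w hw
  by_cases hprime : ∀ X ⊆ (S : Set V), (∃ a ∈ X, ∃ b ∈ X, a ≠ b) → X ≠ (S : Set V) →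
      ¬ Homog G (S : Set V) X
  · obtain ⟨v, hv⟩ := hS
    refine ⟨S.filter (fun u => ¬ G.Adj v u), Finset.filter_subset _ _, ?_, ?_⟩
    · have h1 := berge_nonnbrs hG hL hprime (Finset.mem_coe.2 hv)
      have h2 : ((S.filter (fun u => ¬ G.Adj v u) : Finset V) : Set V) =
          {u | u ∈ (S : Set V) ∧ ¬ G.Adj v u} := by
        ext u
        simp
      rw [h2]
      exact h1
    · intro K hK hKA hKc
      have hadj : ∀ u ∈ K, G.Adj v u := by
        intro u hu
        by_contra h
        exact (Finset.disjoint_left.1 hKA hu) (Finset.mem_filter.2 ⟨hK hu, h⟩)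
      have hvK : v ∉ K := fun h => (G.loopless.irrefl v) (hadj v h)
      refine ⟨insert v K, ?_, ?_, ?_⟩
      · intro u hu
        rcases Finset.mem_insert.1 hu with h | h
        · rw [h]; exact hv
        · exact hK h
      · rw [Finset.coe_insert, SimpleGraph.isClique_insert]
        exact ⟨hKc, fun b hb _ => hadj b (Finset.mem_coe.1 hb)⟩
      · rw [Finset.sum_insert hvK]
        have := hw v
        linarith
  · push Not at hprime
    obtain ⟨Xs, hXsS, ⟨a, ha, b, hb, hab⟩, hXne, hXh⟩ := hprime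
    -- the finset
    obtain ⟨X, rfl⟩ : ∃ X : Finset V, (X : Set V) = Xs :=
      ⟨(S.finite_toSet.subset hXsS).toFinset, by simp⟩
    have hXS : X ⊆ S := Finset.coe_subset.1 hXsS
    have hXneS : X ≠ S := fun h => hXne (by rw [h])
    have ha' : a ∈ X := Finset.mem_coe.1 ha
    have hb' : b ∈ X := Finset.mem_coe.1 hb
    have hXcard : X.card < S.card := Finset.card_lt_card (Finset.ssubset_iff_subset_ne.2 ⟨hXS, hXneS⟩)
    have hX2 : 1 < X.card := Finset.one_lt_card.2 ⟨a, ha', b, hb', hab⟩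
    set x0 := a with hx0def
    set S' : Finset V := (S \ X) ∪ {x0} with hS'
    have hS'card : S'.card < S.card := by
      have h1 : S'.card ≤ (S \ X).card + 1 := by
        refine (Finset.card_union_le _ _).trans ?_
        simp
      rw [Finset.card_sdiff_of_subset hXS] at h1
      omega
    have hx0S' : x0 ∈ S' := by
      rw [hS', Finset.mem_union, Finset.mem_singleton]
      exact Or.inr rfl
    have hS'S : S' ⊆ S := by
      intro u hu
      rw [hS', Finset.mem_union, Finset.mem_sdiff, Finset.mem_singleton] at hu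
      rcases hu with h | h
      · exact h.1
      · rw [h]; exact hXS ha'
    have hS'X : ∀ u ∈ S', u ∈ X → u = x0 := by
      intro u hu huX
      rw [hS', Finset.mem_union, Finset.mem_sdiff, Finset.mem_singleton] at hu
      rcases hu with h | h
      · exact absurd huX h.2
      · exact h
    -- maximum weight clique in `X`
    obtain ⟨KX, hKXm, hKXmax⟩ := Finset.exists_max_image
      (X.powerset.filter (fun K : Finset V => G.IsClique (K : Set V)))
      (fun K : Finset V => ∑ v ∈ K, w v)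
      ⟨∅, by simp⟩
    rw [Finset.mem_filter, Finset.mem_powerset] at hKXm
    have hmax : ∀ K : Finset V, K ⊆ X → G.IsClique (K : Set V) →
        ∑ v ∈ K, w v ≤ ∑ v ∈ KX, w v := by
      intro K h1 h2
      exact hKXmax K (Finset.mem_filter.2 ⟨Finset.mem_powerset.2 h1, h2⟩)
    have hWpos : 0 < ∑ v ∈ KX, w v := by
      have h1 := hmax {x0} (by simpa using ha') (by simp)
      rw [Finset.sum_singleton] at h1
      exact lt_of_lt_of_le (hw x0) h1
    set w' : V → ℝ := Function.update w x0 (∑ v ∈ KX, w v) with hw'def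
    have hw'0 : w' x0 = ∑ v ∈ KX, w v := by simp [hw'def]
    have hw'1 : ∀ u, u ≠ x0 → w' u = w u := fun u hu => by simp [hw'def, hu]
    have hw'pos : ∀ u, 0 < w' u := by
      intro u
      by_cases h : u = x0
      · rw [h, hw'0]; exact hWpos
      · rw [hw'1 u h]; exact hw u
    obtain ⟨A', hA'S, hA'B, hA'K⟩ := ih S'.card (by omega) S' rfl ⟨x0, hx0S'⟩ w' hw'pos
    obtain ⟨AX, hAXX, hAXB, hAXK⟩ := ih X.card (by omega) X rfl ⟨x0, ha'⟩ w hw
    have conv := fun (K : Finset V) (hK : K ⊆ S') (hKc : G.IsClique (K : Set V)) =>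
      clique_conv (G := G) hXh ha' w w' hw'1 hKXm.1 hKXm.2 hw'0 hXS hK hKc
    -- the clique `(K \ X) ∪ {x0}`
    have hK0 : ∀ K : Finset V, K ⊆ S → G.IsClique (K : Set V) → (K ∩ X).Nonempty →
        insert x0 (K \ X) ⊆ S' ∧ G.IsClique ((insert x0 (K \ X) : Finset V) : Set V) ∧
        ∑ v ∈ insert x0 (K \ X), w' v = ∑ v ∈ K \ X, w v + ∑ v ∈ KX, w v := by
      intro K hK hKc ⟨z, hz⟩
      rw [Finset.mem_inter] at hz
      refine ⟨?_, ?_, ?_⟩
      · intro u hu
        rcases Finset.mem_insert.1 hu with h | h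
        · rw [h]; exact hx0S'
        · rw [hS', Finset.mem_union, Finset.mem_sdiff]
          rw [Finset.mem_sdiff] at h
          exact Or.inl ⟨hK h.1, h.2⟩
      · rw [Finset.coe_insert, SimpleGraph.isClique_insert]
        refine ⟨hKc.subset (by simp), fun u hu _ => ?_⟩
        rw [Finset.mem_coe, Finset.mem_sdiff] at hu
        rcases hXh u (Finset.mem_coe.2 (hK hu.1)) (fun h => hu.2 (Finset.mem_coe.1 h)) with h | h
        · exact (h x0 ha).symm
        · exfalso
          refine h z (Finset.mem_coe.2 hz.2) (hKc (Finset.mem_coe.2 hu.1) (Finset.mem_coe.2 hz.1) ?_)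
          rintro rfl
          exact hu.2 hz.2
      · rw [Finset.sum_insert (by simp [ha']), hw'0, add_comm]
        congr 1
        refine Finset.sum_congr rfl fun u hu => hw'1 u ?_
        rintro rfl
        exact (Finset.mem_sdiff.1 hu).2 ha'
    -- splitting the weight
    have hsplit : ∀ K : Finset V, ∑ v ∈ K, w v = ∑ v ∈ K \ X, w v + ∑ v ∈ K ∩ X, w v := by
      intro K
      rw [add_comm, Finset.sum_inter_add_sum_sdiff]
    have hsd : ∀ K : Finset V, ∑ v ∈ K \ X, w' v = ∑ v ∈ K \ X, w v := by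
      intro K
      refine Finset.sum_congr rfl fun u hu => hw'1 u ?_
      rintro rfl
      exact (Finset.mem_sdiff.1 hu).2 ha'
    have hsdS : ∀ K : Finset V, K ⊆ S → K \ X ⊆ S' := by
      intro K hK u hu
      rw [hS', Finset.mem_union, Finset.mem_sdiff]
      rw [Finset.mem_sdiff] at hu
      exact Or.inl ⟨hK hu.1, hu.2⟩
    -- the case where `K` does not meet `X`
    have hcase0 : ∀ K : Finset V, K ⊆ S → G.IsClique (K : Set V) → ¬ (K ∩ X).Nonempty →
        Disjoint K A' → ∃ K' ⊆ S, G.IsClique (K' : Set V) ∧ ∑ v ∈ K, w v < ∑ v ∈ K', w v := by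
      intro K hK hKc hKX hKA
      rw [Finset.not_nonempty_iff_eq_empty] at hKX
      have h1 : K \ X = K := by
        rw [Finset.sdiff_eq_self_iff_disjoint, Finset.disjoint_iff_inter_eq_empty]
        exact hKX
      have h2 := hsdS K hK
      have h3 := hsd K
      rw [h1] at h2 h3
      obtain ⟨K'', hK''S, hK''c, hlt⟩ := hA'K K h2 hKA hKc
      obtain ⟨K', hK'S, hK'c, heq⟩ := conv K'' hK''S hK''c
      exact ⟨K', hK'S, hK'c, by linarith⟩
    by_cases hx0A : x0 ∈ A'
    · refine ⟨(A' \ {x0}) ∪ AX, ?_, ?_, ?_⟩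
      · intro u hu
        rcases Finset.mem_union.1 hu with h | h
        · exact hS'S (hA'S (Finset.mem_sdiff.1 h).1)
        · exact hXS (hAXX h)
      · have h1 : (((A' \ {x0}) ∪ AX : Finset V) : Set V) =
            ((A' : Set V) \ {x0}) ∪ (AX : Set V) := by
          simp
        rw [h1]
        refine berge_subst hXh ha ?_ ?_ (Finset.mem_coe.2 hx0A) ?_ hA'B hAXB
        · exact Finset.coe_subset.2 (hA'S.trans hS'S)
        · exact Finset.coe_subset.2 hAXX
        · intro x hx hxX
          exact hS'X x (hA'S (Finset.mem_coe.1 hx)) (Finset.mem_coe.1 hxX)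
      · intro K hK hKA hKc
        rw [Finset.disjoint_union_right] at hKA
        by_cases hKX : (K ∩ X).Nonempty
        · obtain ⟨h1, h2, h3⟩ := hK0 K hK hKc hKX
          obtain ⟨K', hK'S, hK'c, heq⟩ := conv _ h1 h2
          refine ⟨K', hK'S, hK'c, ?_⟩
          rw [← heq, h3, hsplit K]
          obtain ⟨K1, hK1X, hK1c, hlt⟩ := hAXK (K ∩ X) Finset.inter_subset_right
            (hKA.2.mono_left Finset.inter_subset_left) (hKc.subset (by simp))
          have := hmax K1 hK1X hK1c
          linarith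
        · refine hcase0 K hK hKc hKX ?_
          rw [Finset.disjoint_left]
          intro u hu huA
          by_cases hux : u = x0
          · rw [hux] at hu
            exact hKX ⟨x0, Finset.mem_inter.2 ⟨hu, ha'⟩⟩
          · exact (Finset.disjoint_left.1 hKA.1 hu)
              (Finset.mem_sdiff.2 ⟨huA, by simpa using hux⟩)
    · refine ⟨A', hA'S.trans hS'S, hA'B, ?_⟩
      intro K hK hKA hKc
      by_cases hKX : (K ∩ X).Nonempty
      · obtain ⟨h1, h2, h3⟩ := hK0 K hK hKc hKX
        have h4 : Disjoint (insert x0 (K \ X)) A' := by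
          rw [Finset.disjoint_insert_left]
          exact ⟨hx0A, hKA.mono_left Finset.sdiff_subset⟩
        obtain ⟨K'', hK''S, hK''c, hlt⟩ := hA'K _ h1 h4 h2
        obtain ⟨K', hK'S, hK'c, heq⟩ := conv K'' hK''S hK''c
        refine ⟨K', hK'S, hK'c, ?_⟩
        rw [← heq, hsplit K]
        have := hmax (K ∩ X) Finset.inter_subset_right (hKc.subset (by simp))
        linarith
      · exact hcase0 K hK hKc hKX hKA

/-- The local condition at the odd antiholes `C` of length at least 7 and the vertices `d` with no neighbour in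
`C`: (1) each neighbour of `d` is adjacent to all vertices of `C` or to none; (2) a neighbour `x` of `d` which is
adjacent to all vertices of `C` is adjacent to each vertex `y` which is not a neighbour of `d` and has a
neighbour in `C`. -/
def LocalCondition (G : SimpleGraph V) : Prop :=
  ∀ k, 3 ≤ k → ∀ C : (cycleGraph (2 * k + 1))ᶜ ↪g G, ∀ d, (∀ i, ¬ G.Adj d (C i)) →
    (∀ x, G.Adj d x → (∀ i, G.Adj x (C i)) ∨ ∀ i, ¬ G.Adj x (C i)) ∧
    ∀ x y, G.Adj d x → (∀ i, G.Adj x (C i)) → ¬ G.Adj d y → (∃ i, G.Adj y (C i)) → G.Adj x y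

/-- the local condition excludes tailed odd wheels in the complement -/
theorem noWheel_of_local {G : SimpleGraph V} (hL : LocalCondition G) : ¬ TailedOddWheel Gᶜ := by
  rintro ⟨m, hm, C, v, k, p, hvC, hpC, ⟨j1, hj1⟩, ⟨j0, hj0⟩, hp0, hvp, hvk, hvne⟩
  have gadj : ∀ a b : V, a ≠ b → ¬ Gᶜ.Adj a b → G.Adj a b := by
    intro a b hab h
    by_contra h1
    exact h ((SimpleGraph.compl_adj _ _ _).2 ⟨hab, h1⟩)
  let C' : (cycleGraph (2 * m + 1))ᶜ ↪g G :=
    ⟨C.toEmbedding, by
      intro i j
      have h1 := C.map_adj_iff (v := i) (w := j)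
      rw [SimpleGraph.compl_adj] at h1
      change G.Adj (C i) (C j) ↔ _
      rw [SimpleGraph.compl_adj, ← h1]
      constructor
      · intro h
        exact ⟨fun hij => h.ne (by rw [hij]), fun h2 => h2.2 h⟩
      · rintro ⟨h2, h3⟩
        by_contra h4
        exact h3 ⟨fun h => h2 (C.injective h), h4⟩⟩
  have hC' : ∀ i, C' i = C i := fun i => rfl
  have hv : ∀ i, ¬ G.Adj v (C' i) := fun i => ((SimpleGraph.compl_adj _ _ _).1 (hvC i)).2
  obtain ⟨h1, h2⟩ := hL m hm C' v hv
  have hvx : G.Adj v (p (Fin.last k)) := gadj _ _ hvne hvk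
  rcases Nat.eq_zero_or_pos k with h0 | h0
  · subst h0
    have e : (Fin.last 0 : Fin (0 + 1)) = 0 := rfl
    rw [e] at hvx
    rcases h1 _ hvx with h | h
    · exact ((SimpleGraph.compl_adj _ _ _).1 hj1).2 (h j1)
    · exact h j0 (gadj _ _ (hpC _ _) hj0)
  · -- the last but one vertex
    have hlast0 : (Fin.last k : Fin (k + 1)) ≠ 0 := by
      intro h
      have := congrArg Fin.val h
      simp at this
      omega
    have hxC : ∀ i, G.Adj (p (Fin.last k)) (C' i) := fun i => gadj _ _ (hpC _ _) (hp0 _ hlast0 i)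
    let q : Fin (k + 1) := ⟨k - 1, by omega⟩
    have hq : q ≠ Fin.last k := by
      intro h
      have := congrArg Fin.val h
      simp [q] at this
      omega
    have hvq := (SimpleGraph.compl_adj _ _ _).1 (hvp q hq)
    have hqx : Gᶜ.Adj (p (Fin.last k)) (p q) := by
      rw [p.map_adj_iff, pathGraph_adj]
      right
      simp [q]
      omega
    have hqC : ∃ i, G.Adj (p q) (C' i) := by
      by_cases hq0 : q = 0
      · rw [hq0]
        exact ⟨j0, gadj _ _ (hpC _ _) hj0⟩
      · exact ⟨j0, gadj _ _ (hpC _ _) (hp0 q hq0 j0)⟩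
    exact ((SimpleGraph.compl_adj _ _ _).1 hqx).2 (h2 _ _ hvx hxC hvq.2 hqC)

/-- kite-free graphs satisfy the local condition -/
theorem local_of_kiteFree {G : SimpleGraph V} (hK : KiteFree G) : LocalCondition G := by
  classical
  intro k hk C d hd
  have hn0 : 0 < 2 * k + 1 := by omega
  have hadj : ∀ m i δ : ℕ, 2 ≤ δ → δ ≤ 5 → G.Adj (C (ix hn0 (m + i))) (C (ix hn0 (m + i + δ))) := by
    intro m i δ h1 h2
    rw [C.map_adj_iff, SimpleGraph.compl_adj]
    refine ⟨ix_ne hn0 (m + i) δ (by omega) (by omega), fun h => ?_⟩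
    have := (ix_adj (n := 2 * k + 1) (by omega) (m + i) δ (by omega) (by omega)).1 h
    omega
  have hnadj : ∀ i : ℕ, ¬ G.Adj (C (ix hn0 i)) (C (ix hn0 (i + 1))) ∧
      C (ix hn0 (i + 1)) ≠ C (ix hn0 i) := by
    intro i
    rw [C.map_adj_iff, SimpleGraph.compl_adj]
    refine ⟨fun h => h.2 ?_, fun h => ?_⟩
    · exact (ix_adj (n := 2 * k + 1) (by omega) i 1 (by omega) (by omega)).2 (Or.inl rfl)
    · exact ix_ne hn0 i 1 (by omega) (by omega) (C.injective h).symm
  -- kites
  have kite : ∀ a b p q r : V, p ≠ q → G.Adj a b → G.Adj a p → G.Adj b p → G.Adj a q →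
      G.Adj b q → ¬ G.Adj p q → G.Adj r q → ¬ G.Adj r a → ¬ G.Adj r b → ¬ G.Adj r p → False :=
    fun a b p q r h1 h2 h3 h4 h5 h6 h7 h8 h9 h10 h11 =>
      hK ⟨a, b, p, q, r, h1, h2, h3, h4, h5, h6, h7, h8, h9, h10, h11⟩
  refine ⟨?_, ?_⟩
  · intro x hdx
    by_contra hcon
    push Not at hcon
    obtain ⟨⟨i0, hi0⟩, ⟨j0, hj0⟩⟩ := hcon
    obtain ⟨m, hm0, hm1⟩ := exists_change hn0 {i | G.Adj x (C i)} ⟨j0, hj0⟩ (fun h => hi0 (by
      have : i0 ∈ {i | G.Adj x (C i)} := by rw [h]; trivial
      exact this))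
    simp only [Set.mem_ofPred_eq] at hm0 hm1
    have a03 := hadj m 0 3 (by omega) (by omega)
    have a05 := hadj m 0 5 (by omega) (by omega)
    have a13 := hadj m 1 2 (by omega) (by omega)
    have a15 := hadj m 1 4 (by omega) (by omega)
    have a35 := hadj m 3 2 (by omega) (by omega)
    simp only [Nat.add_zero, Nat.add_assoc, Nat.reduceAdd] at a03 a05 a13 a15 a35
    obtain ⟨n01, e01⟩ := hnadj m
    have hxne : ∀ i, C i ≠ x := by
      intro i h
      exact hd i (h ▸ hdx)
    by_cases h3 : G.Adj x (C (ix hn0 (m + 3)))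
    · by_cases h5 : G.Adj x (C (ix hn0 (m + 5)))
      · -- (Z, Z)
        exact kite (C (ix hn0 (m + 3))) (C (ix hn0 (m + 5))) (C (ix hn0 (m + 1))) x d (hxne _)
          a35 a13.symm a15.symm h3.symm h5.symm (fun h => hm1 h.symm) hdx (hd _) (hd _) (hd _)
      · -- (Z, N)
        exact kite (C (ix hn0 m)) (C (ix hn0 (m + 3))) (C (ix hn0 (m + 5))) x d (hxne _)
          a03 a05 a35 hm0.symm h3.symm (fun h => h5 h.symm) hdx (hd _) (hd _) (hd _)
    · by_cases h5 : G.Adj x (C (ix hn0 (m + 5)))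
      · -- (N, Z)
        exact kite (C (ix hn0 m)) (C (ix hn0 (m + 5))) (C (ix hn0 (m + 3))) x d (hxne _)
          a05 a03 a35.symm hm0.symm h5.symm (fun h => h3 h.symm) hdx (hd _) (hd _) (hd _)
      · -- (N, N)
        exact kite (C (ix hn0 (m + 3))) (C (ix hn0 (m + 5))) (C (ix hn0 (m + 1))) (C (ix hn0 m)) x
          e01 a35 a13.symm a15.symm a03.symm a05.symm (fun h => n01 h.symm) hm0 h3 h5 hm1
  · intro x y hdx hxC hdy ⟨i0, hi0⟩
    by_contra hxy
    have hyx : y ≠ x := by
      rintro rfl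
      exact hdy hdx
    by_cases hall : ∀ i, G.Adj y (C i)
    · have a02 := hadj 0 0 2 (by omega) (by omega)
      simp only [Nat.add_zero, Nat.zero_add] at a02
      exact kite (C (ix hn0 0)) (C (ix hn0 2)) y x d hyx a02 (hall _).symm (hall _).symm
        (hxC _).symm (hxC _).symm (fun h => hxy h.symm) hdx (hd _) (hd _) hdy
    · push Not at hall
      obtain ⟨j0, hj0⟩ := hall
      obtain ⟨m, hm0, hm1⟩ := exists_change hn0 {i | G.Adj y (C i)} ⟨i0, hi0⟩ (fun h => hj0 (by
        have : j0 ∈ {i | G.Adj y (C i)} := by rw [h]; trivial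
        exact this))
      simp only [Set.mem_ofPred_eq] at hm0 hm1
      have a03 := hadj m 0 3 (by omega) (by omega)
      have a13 := hadj m 1 2 (by omega) (by omega)
      simp only [Nat.add_zero, Nat.add_assoc, Nat.reduceAdd] at a03 a13
      obtain ⟨n01, e01⟩ := hnadj m
      by_cases h3 : G.Adj y (C (ix hn0 (m + 3)))
      · exact kite (C (ix hn0 m)) (C (ix hn0 (m + 3))) y x d hyx a03 hm0.symm h3.symm
          (hxC _).symm (hxC _).symm (fun h => hxy h.symm) hdx (hd _) (hd _) hdy
      · exact kite x (C (ix hn0 (m + 3))) (C (ix hn0 (m + 1))) (C (ix hn0 m)) y e01 (hxC _)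
          (hxC _) a13.symm (hxC _) a03.symm (fun h => n01 h.symm) hm0 (fun h => hxy h.symm) h3 hm1

end Pool.Agent.PerfDiv
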